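import Pool.Agent.Run7.h635.GEN.Stm
import Pool.Agent.Run7.h635.OD.Tr2
import Pool.Agent.Run7.h635.OD.Thp
import Pool.Agent.Run7.h594.CY.Fin
import Pool.Agent.Run7.h809.OD.Zero

/-!
# Ordinary primes of an eigenform whose coefficients have polynomially bounded conjugates
-/

set_option autoImplicit false

open PowerSeries

namespace H635.GEN

open H809.OD H809.OD.Inst MatrixGroups UpperHalfPlane Run7.h635.OD

/-- `G` is algebraic over `K(u)` -/
def AlgK (K : Type) [Field K] [Algebra ℚ K] (G : K⟦X⟧) : Prop :=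
  ∃ Φ : Polynomial (Polynomial K), Φ ≠ 0 ∧ Polynomial.eval₂
    (Polynomial.aeval (PowerSeries.map (algebraMap ℚ K) u) : Polynomial K →ₐ[K] K⟦X⟧).toRingHom
    G Φ = 0

/-- DESC for general fields -/
def S_DescK : Prop := ∀ (K : Type) [Field K] [Algebra ℚ K] (φ : K →+* ℂ) (G : K⟦X⟧),
  AlgC (PowerSeries.map φ G) → AlgK K G

/-- the image of an algebraic series under an embedding -/
lemma AlgK.map {K : Type} [Field K] [Algebra ℚ K] {G : K⟦X⟧} (h : AlgK K G) (σ : K →+* ℂ) :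
    AlgC (PowerSeries.map σ G) := by
  obtain ⟨Φ, h0, h1⟩ := h
  refine ⟨Φ.map (Polynomial.mapRingHom σ), ?_, ?_⟩
  · rwa [Ne, Polynomial.map_eq_zero_iff]
    exact Polynomial.map_injective σ σ.injective
  · rw [Polynomial.eval₂_map]
    have h2 := congrArg (PowerSeries.map σ) h1
    rw [map_zero, Polynomial.hom_eval₂] at h2
    rw [← h2]
    congr 1
    ext x
    · simp [Polynomial.aeval_C]
    · simp only [RingHom.comp_apply, Polynomial.coe_mapRingHom, AlgHom.toRingHom_eq_coe,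
        RingHom.coe_coe, Polynomial.map_X, Polynomial.aeval_X]
      unfold Run7.h635.OD.upc
      rw [← RingHom.comp_apply (PowerSeries.map σ), ← PowerSeries.map_comp]
      congr 2
      congr 1
      exact Subsingleton.elim _ _

lemma AlgC.add {G H : ℂ⟦X⟧} (hG : AlgC G) (hH : AlgC H) : AlgC (G + H) := by
  let _ : Algebra (Polynomial ℂ) ℂ⟦X⟧ :=
    (Polynomial.aeval (Run7.h635.OD.upc u) : Polynomial ℂ →ₐ[ℂ] ℂ⟦X⟧).toRingHom.toAlgebra
  have h1 : IsAlgebraic (Polynomial ℂ) G := hG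
  have h2 : IsAlgebraic (Polynomial ℂ) H := hH
  exact h1.add h2

lemma AlgC.zero : AlgC 0 := ⟨Polynomial.X, Polynomial.X_ne_zero, by rw [Polynomial.eval₂_X]⟩

lemma AlgC.sum {ι : Type*} (s : Finset ι) (G : ι → ℂ⟦X⟧) (h : ∀ i ∈ s, AlgC (G i)) :
    AlgC (∑ i ∈ s, G i) := by
  classical
  induction s using Finset.induction_on with
  | empty => rw [Finset.sum_empty]; exact AlgC.zero
  | insert i s hi ih =>
    rw [Finset.sum_insert hi]
    exact (h i (Finset.mem_insert_self _ _)).add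
      (ih fun j hj => h j (Finset.mem_insert_of_mem hj))

section
variable {K : IntermediateField ℚ ℂ} [FiniteDimensional ℚ K]

/-- the trace series of an algebraic series is algebraic -/
lemma algU_trace (hDK : S_DescK) (hD : S_Desc) (k : ℕ) (a : ℕ → K) (b : ℕ → ℤ)
    (hb : ∀ n, (b n : ℚ) = Algebra.trace ℚ K (a n))
    (h : AlgC (PowerSeries.mk (fun n => (a n : ℂ)) * Run7.h635.OD.upc wi ^ k)) :
    AlgU (PowerSeries.mk (fun n => (b n : ℚ)) * wi ^ k) := by
  classical
  have hmw : ∀ σ : K →+* ℂ, PowerSeries.map σ (PowerSeries.map (algebraMap ℚ K) wi) =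
      Run7.h635.OD.upc wi := by
    intro σ
    unfold Run7.h635.OD.upc
    rw [← RingHom.comp_apply (PowerSeries.map σ), ← PowerSeries.map_comp]
    congr 2
    exact Subsingleton.elim _ _
  set GK : K⟦X⟧ := PowerSeries.mk a * (PowerSeries.map (algebraMap ℚ K) wi) ^ k with hGK
  have hmap : ∀ σ : K →+* ℂ, PowerSeries.map σ GK =
      PowerSeries.mk (fun n => σ (a n)) * Run7.h635.OD.upc wi ^ k := by
    intro σ
    rw [hGK, map_mul, map_pow, hmw σ]
    congr 1
  have h1 : AlgK K GK := by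
    refine hDK K (algebraMap K ℂ) GK ?_
    rw [hmap]
    exact h
  have h2 : AlgC (∑ σ : K →ₐ[ℚ] ℂ, PowerSeries.map (σ : K →+* ℂ) GK) :=
    AlgC.sum _ _ fun σ _ => h1.map _
  have h3 : (∑ σ : K →ₐ[ℚ] ℂ, PowerSeries.map (σ : K →+* ℂ) GK) =
      Run7.h635.OD.upc (PowerSeries.mk (fun n => (b n : ℚ)) * wi ^ k) := by
    simp only [hmap]
    rw [← Finset.sum_mul]
    unfold Run7.h635.OD.upc
    rw [map_mul, map_pow]
    congr 1
    ext n
    rw [map_sum]
    simp only [coeff_mk, coeff_map]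
    rw [hb n]
    exact (trace_eq_sum_embeddings (K := ℚ) (L := K) (E := ℂ) (x := a n)).symm
  rw [h3] at h2
  exact hD _ h2

/-- **Core theorem.** -/
theorem core (hA : S_Alg) (hDK : S_DescK) (hD : S_Desc) (hO : S_Odd) (hmain : S_GMain)
    (ht : Theta) (M N : ℕ) (hM : M ≠ 0) (hN : 1 ≤ N) (𝒢 : Subgroup (GL (Fin 2) ℝ))
    [𝒢.IsArithmetic] (h1 : (1 : ℝ) ∈ 𝒢.strictPeriods) (f : CuspForm 𝒢 ((N + 2 : ℕ) : ℤ))
    (K : IntermediateField ℚ ℂ) [FiniteDimensional ℚ K] (a : ℕ → K)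
    (ha : ∀ n, (UpperHalfPlane.qExpansion 1 f).coeff n = a n)
    (hint : ∀ n, IsIntegral ℤ (a n : ℂ)) (ha1 : a 1 = 1)
    (hmul : ∀ p : ℕ, p.Prime → ¬ p ∣ M → ∀ n, ¬ p ∣ n → a (p * n) = a p * a n)
    (hgr : ∃ C A : ℕ, ∀ (σ : K →ₐ[ℚ] ℂ) (n : ℕ), ‖σ (a n)‖ ≤ C * ((n : ℝ) + 1) ^ A) :
    PosLog (fun p => UnitAbove (a p : ℂ) p) := by
  classical
  -- the traces
  have htr : ∀ n, ∃ z : ℤ, (z : ℚ) = Algebra.trace ℚ K (a n) := by
    intro n
    have h2 : IsIntegral ℤ (a n) := by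
      have : IsIntegral ℤ (algebraMap K ℂ (a n)) := hint n
      exact (isIntegral_algebraMap_iff (algebraMap K ℂ).injective).1 this
    have h3 : IsIntegral ℤ (Algebra.trace ℚ K (a n)) := Algebra.isIntegral_trace h2
    obtain ⟨z, hz⟩ := IsIntegrallyClosed.isIntegral_iff.1 h3
    exact ⟨z, by simpa using hz⟩
  choose b hb using htr
  have hb1 : b 1 ≠ 0 := by
    intro h0
    have h2 := hb 1
    rw [h0, ha1] at h2
    have h3 : Algebra.trace ℚ K 1 = (Module.finrank ℚ K : ℚ) := by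
      have := Algebra.trace_algebraMap (R := ℚ) (S := K) (1 : ℚ)
      simpa using this
    rw [h3] at h2
    have h4 : 0 < Module.finrank ℚ K := Module.finrank_pos
    have h5 : (0 : ℚ) < (Module.finrank ℚ K : ℚ) := by exact_mod_cast h4
    rw [← h2] at h5
    simp at h5
  -- algebraicity
  set G0 : ℚ⟦X⟧ := PowerSeries.mk (fun n => (b n : ℚ)) * wi ^ (N + 2) with hG0
  have hfq : UpperHalfPlane.qExpansion 1 f = PowerSeries.mk (fun n => (a n : ℂ)) := by
    ext n
    rw [coeff_mk, ha n]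
  have hAG0 : AlgU G0 := by
    refine algU_trace hDK hD (N + 2) a b hb ?_
    have h2 := hA 𝒢 h1 (N + 2) (f : ModularForm 𝒢 ((N + 2 : ℕ) : ℤ))
    have h3 : UpperHalfPlane.qExpansion 1 ((f : ModularForm 𝒢 ((N + 2 : ℕ) : ℤ)) : ℍ → ℂ) =
        PowerSeries.mk (fun n => (a n : ℂ)) := hfq
    rw [h3] at h2
    exact h2
  set G : ℚ⟦X⟧ := G0 - (1 - 8 * u) ^ (N + 2) * ng G0 with hG
  have hAG : AlgU G := hO (N + 2) G0 hAG0
  have hwwi : w * wi = 1 := Run7.h709.OD.w_mul_wi ht
  have hwG0 : w ^ (N + 2) * G0 = PowerSeries.mk (fun n => (b n : ℚ)) := by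
    rw [hG0, mul_comm (PowerSeries.mk _), ← mul_assoc, ← mul_pow, hwwi, one_pow, one_mul]
  have hwG : w ^ (N + 2) * G = PowerSeries.mk (fun n => (b n : ℚ)) -
      ng (PowerSeries.mk (fun n => (b n : ℚ))) := by
    rw [hG, mul_sub, hwG0, ← mul_assoc, ← mul_pow, ← ht.ng_w, ← map_pow, ← map_mul, hwG0]
  set a' : ℕ → ℤ := fun n => if Even n then 0 else 2 * b n with ha'
  have hcoef : ∀ n, coeff n (w ^ (N + 2) * G) = (a' n : ℚ) := by
    intro n
    rw [hwG, map_sub, coeff_mk]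
    have h2 : coeff n (ng (PowerSeries.mk (fun n => (b n : ℚ)))) = (-1) ^ n * (b n : ℚ) := by
      unfold ng
      rw [coeff_rescale, coeff_mk]
    rw [h2, ha']
    rcases Nat.even_or_odd n with hn | hn
    · simp only [hn, if_true]
      rw [hn.neg_one_pow]
      push_cast
      ring
    · simp only [Nat.not_even_iff_odd.2 hn, if_false]
      rw [hn.neg_one_pow]
      push_cast
      ring
  have hGne : G ≠ 0 := by
    intro h0
    have h2 := hcoef 1
    rw [h0, mul_zero, map_zero, ha'] at h2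
    simp only [Nat.not_even_one, if_false] at h2
    apply hb1
    have : (2 : ℚ) * b 1 = 0 := by exact_mod_cast h2.symm
    have h3 : (b 1 : ℚ) = 0 := by linarith
    exact_mod_cast h3
  have hgrow : PolyGrowth (w ^ (N + 2) * G) := by
    obtain ⟨C, A, hC⟩ := hgr
    refine ⟨2 * (Fintype.card (K →ₐ[ℚ] ℂ) * C), A, fun n => ?_⟩
    have h2 : |(b n : ℝ)| ≤ Fintype.card (K →ₐ[ℚ] ℂ) * C * ((n : ℝ) + 1) ^ A := by
      have h3 : ((b n : ℤ) : ℂ) = ∑ σ : K →ₐ[ℚ] ℂ, σ (a n) := by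
        rw [← trace_eq_sum_embeddings (K := ℚ) (L := K) (E := ℂ) (x := a n), ← hb n]
        simp
      have h4 : ‖((b n : ℤ) : ℂ)‖ = |(b n : ℝ)| := by
        rw [Complex.norm_intCast]
      rw [← h4, h3]
      refine (norm_sum_le _ _).trans ((Finset.sum_le_card_nsmul _ _ _ fun σ _ => hC σ n).trans ?_)
      rw [nsmul_eq_mul, Finset.card_univ, mul_assoc]
    rw [hcoef n, ha']
    simp only
    split_ifs with hn
    · simp only [Int.cast_zero, Rat.cast_zero, abs_zero]
      positivity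
    · have e : (((2 * b n : ℤ) : ℚ) : ℝ) = 2 * (b n : ℝ) := by push_cast; ring
      rw [e, abs_mul, abs_two, mul_assoc]
      exact mul_le_mul_of_nonneg_left h2 (by norm_num)
  have key := hmain N G a' (fun p => UnitAbove (a p : ℂ) p ∨ p ∣ M) hN hAG hGne hgrow hcoef
    (fun n hn => by rw [ha']; simp [hn]) (by
      intro p hp hnP n hn hpn
      push Not at hnP
      obtain ⟨hnU, hpM⟩ := hnP
      unfold UnitAbove at hnU
      rw [not_not] at hnU
      obtain ⟨m, hm⟩ := hnU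
      obtain ⟨l, rfl⟩ := hpn
      have hl : l < p := by
        rw [sq] at hn
        exact lt_of_mul_lt_mul_left hn (Nat.zero_le p)
      rcases Nat.eq_zero_or_pos l with rfl | hl0
      · rw [mul_zero, ha']
        simp
      · have hnd : ¬ p ∣ l := Nat.not_dvd_of_pos_of_lt hl0 hl
        rw [ha']
        simp only
        split_ifs
        · exact dvd_zero _
        · refine Dvd.dvd.mul_left ?_ 2
          refine dvd_trace (x := a (p * l)) (m := m) hp (hint _) ?_ (hb _)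
          rw [hmul p hp hpM l hnd]
          have e2 : ((a p * a l : K) : ℂ) ^ m / (p : ℂ) =
              ((a p : ℂ) ^ m / (p : ℂ)) * (a l : ℂ) ^ m := by
            push_cast; ring
          rw [e2]
          exact hm.mul ((hint l).pow m))
  exact H594.CY.remove_finite (fun p => UnitAbove (a p : ℂ) p ∨ p ∣ M)
    (fun p => UnitAbove (a p : ℂ) p) M hM (fun p _ hpM h => h.resolve_right hpM) key

end

end H635.GEN
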