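import Pool.Agent.Run7.h635.GEN.GPigB

/-! GPIG: the auxiliary function. -/

set_option autoImplicit false

open PowerSeries

namespace H635.GEN

open H809.OD H594.OD

section

variable {G : ℚ⟦X⟧} (L : LData G)

/-- generators of `Mo` -/
noncomputable def gens (G : ℚ⟦X⟧) (d t n : ℕ) : Finset ℚ⟦X⟧ := by
  classical
  exact ((Finset.range (t + 1)) ×ˢ ((Finset.range d) ×ˢ (Finset.range (n + 1)))).image
    fun z => u ^ z.1 * G ^ z.2.1 * zt ^ z.2.2

lemma gens_card (d t n : ℕ) : (gens G d t n).card ≤ (t + 1) * (d * (n + 1)) := by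
  classical
  refine Finset.card_image_le.trans ?_
  simp [Finset.card_product]

lemma Mo_eq (d t n : ℕ) : Mo G d t n = Submodule.span ℚ (gens G d t n : Set ℚ⟦X⟧) := by
  classical
  unfold Mo gens
  congr 1
  ext x
  simp only [Set.mem_ofPred_eq, Finset.coe_image, Set.mem_image, Finset.mem_coe,
    Finset.mem_product, Finset.mem_range]
  constructor
  · rintro ⟨i, hi, l, hl, b, hb, rfl⟩
    exact ⟨(i, l, b), ⟨Nat.lt_succ_of_le hi, hl, Nat.lt_succ_of_le hb⟩, rfl⟩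
  · rintro ⟨⟨i, l, b⟩, ⟨hi, hl, hb⟩, rfl⟩
    exact ⟨i, Nat.lt_succ_iff.1 hi, l, hl, b, Nat.lt_succ_iff.1 hb, rfl⟩

lemma Bt_ne : Polynomial.aeval u (Bt L) ≠ 0 := by
  refine Run7.h709.OD.ph_ne theta_holds _ ?_
  unfold Bt
  refine mul_ne_zero L.hB (pow_ne_zero _ ?_)
  intro h
  have := congrArg (Polynomial.eval 0) h
  simp at this

lemma MM_fin (s n : ℕ) : FiniteDimensional ℚ (MM L s n) ∧
    Module.finrank ℚ (MM L s n) ≤ (cc L * s + 1) * (L.d * (n + 1)) := by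
  have hfin : FiniteDimensional ℚ (Mo G L.d (cc L * s) n) := by
    rw [Mo_eq]; exact FiniteDimensional.span_finset ℚ _
  have hcard : Module.finrank ℚ (Mo G L.d (cc L * s) n) ≤ (cc L * s + 1) * (L.d * (n + 1)) := by
    rw [Mo_eq]
    exact (finrank_span_finset_le_card _).trans (gens_card _ _ _)
  let φ : MM L s n →ₗ[ℚ] Mo G L.d (cc L * s) n :=
    ((LinearMap.mulLeft ℚ (Polynomial.aeval u (Bt L) ^ s)).restrict (fun x hx => hx))
  have hinj : Function.Injective φ := by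
    intro x y hxy
    apply Subtype.ext
    have h1 := congrArg Subtype.val hxy
    exact mul_left_cancel₀ (pow_ne_zero s (Bt_ne L)) h1
  exact ⟨Module.Finite.of_injective φ hinj,
    (LinearMap.finrank_le_finrank_of_injective hinj).trans hcard⟩

lemma int_mem_Ser2 (z : ℤ) : ((z : ℤ) : ℚ⟦X⟧) ∈ Ser2 := intCast_mem _ z

include L in
theorem gpig_of (ht : S_Tay) (hp : S_Pigeon) {N : ℕ} {F : ℚ⟦X⟧} (hF : th F = w ^ (N + 2) * G)
    (hng : ng F = -F) (hs : F ∈ Ser2) : ∃ c0 : ℕ, 1 ≤ c0 ∧ ∀ K D M h : ℕ,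
  M * (c0 * (2 * N * K + 1) * (D + c0 * (M + K + 1))) < h * (D * ((K + 1) * (N * K + 1))) →
  ∃ c : ℕ → ℕ → ℕ → ℤ, (∀ j k b, |c j k b| < 2 ^ h) ∧
    (∃ j < D, ∃ k ≤ K, ∃ b ≤ N * K, c j k b ≠ 0) ∧
    ∃ g ∈ Ser2,
      ∑ j ∈ Finset.range D, ∑ k ∈ Finset.range (K + 1), ∑ b ∈ Finset.range (N * K + 1),
        (c j k b : ℚ⟦X⟧) * row N 0 F j k b = 2 ^ M * g := by
  classical
  have hd1 := L.hd
  refine ⟨L.d * (cc L + 1) * 4, ?_, fun K D M h hineq => ?_⟩
  · have : 1 ≤ L.d * (cc L + 1) := Nat.mul_pos hd1 (Nat.succ_pos _)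
    omega
  set c0 := L.d * (cc L + 1) * 4 with hc0
  have hc01 : 1 ≤ c0 := by
    have : 1 ≤ L.d * (cc L + 1) := Nat.mul_pos hd1 (Nat.succ_pos _)
    omega
  set s := 1 * M + (D + K * 2 + 1) with hs'
  set V := MM L s (2 * N * K) with hV
  obtain ⟨hVf, hVr⟩ := MM_fin L s (2 * N * K)
  -- approximants
  have happ : ∀ j k b : ℕ, ∃ r : ℚ⟦X⟧, (j < D → k ≤ K → b ≤ N * K → r ∈ V ∧ r ∈ Ser2 ∧
      ∃ g ∈ Ser2, row N 0 F j k b - r = 2 ^ M * g) := by
    intro j k b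
    by_cases hjkb : j < D ∧ k ≤ K ∧ b ≤ N * K
    · obtain ⟨hj, hk, hb⟩ := hjkb
      obtain ⟨y, h1, h2, h3⟩ := Ov_row L ht hF hng hs j k b
      refine ⟨∑ i ∈ Finset.range M, y i, fun _ _ _ => ⟨sum_mem fun i hi => ?_, sum_mem fun i _ => ?_,
        h3 M⟩⟩
      · have hi' := Finset.mem_range.1 hi
        refine MM_mono L ?_ ?_ (h1 i)
        · have : k * 2 ≤ K * 2 := Nat.mul_le_mul_right 2 hk
          omega
        · have : k * N ≤ K * N := Nat.mul_le_mul_right N hk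
          have e : 2 * N * K = N * K + K * N := by ring
          omega
      · obtain ⟨g, hg, e⟩ := h2 i
        rw [e]
        exact mul_mem (pow_mem two_mem i) hg
    · refine ⟨0, fun h1 h2 h3 => absurd ⟨h1, h2, h3⟩ hjkb⟩
  choose r hr using happ
  -- indices
  let ι := (Finset.range D) ×ˢ ((Finset.range (K + 1)) ×ˢ (Finset.range (N * K + 1)))
  have hι : ι.card = D * ((K + 1) * (N * K + 1)) := by
    simp only [ι, Finset.card_product, Finset.card_range]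
  let eq : ι ≃ Fin ι.card := ι.equivFin
  let e : Fin ι.card → ℕ × (ℕ × ℕ) := fun i => (eq.symm i : ℕ × (ℕ × ℕ))
  have heι : ∀ i, e i ∈ ι := fun i => (eq.symm i).2
  have hmem : ∀ z : ℕ × (ℕ × ℕ), z ∈ ι ↔ z.1 < D ∧ z.2.1 ≤ K ∧ z.2.2 ≤ N * K := by
    intro z
    simp only [ι, Finset.mem_product, Finset.mem_range]
    omega
  have hrank : M * ((cc L * s + 1) * (L.d * (2 * N * K + 1))) < h * ι.card := by
    rw [hι]
    refine lt_of_le_of_lt (Nat.mul_le_mul_left M ?_) hineq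
    have h1 : L.d * (cc L * s + 1) ≤ c0 * (D + c0 * (M + K + 1)) := by
      have h2 : cc L * s + 1 ≤ (cc L + 1) * (s + 1) := by nlinarith
      have h3 : s + 1 ≤ 4 * (D + c0 * (M + K + 1)) := by
        have : M + K + 1 ≤ c0 * (M + K + 1) := Nat.le_mul_of_pos_left _ hc01
        omega
      calc L.d * (cc L * s + 1) ≤ L.d * ((cc L + 1) * (s + 1)) := Nat.mul_le_mul_left _ h2
        _ ≤ L.d * ((cc L + 1) * (4 * (D + c0 * (M + K + 1)))) :=
            Nat.mul_le_mul_left _ (Nat.mul_le_mul_left _ h3)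
        _ = c0 * (D + c0 * (M + K + 1)) := by rw [hc0]; ring
    calc (cc L * s + 1) * (L.d * (2 * N * K + 1)) = (L.d * (cc L * s + 1)) * (2 * N * K + 1) := by
          ring
      _ ≤ (c0 * (D + c0 * (M + K + 1))) * (2 * N * K + 1) := Nat.mul_le_mul_right _ h1
      _ = c0 * (2 * N * K + 1) * (D + c0 * (M + K + 1)) := by ring
  have hri : ∀ i, r (e i).1 (e i).2.1 (e i).2.2 ∈ V ∧ r (e i).1 (e i).2.1 (e i).2.2 ∈ Ser2 ∧
      ∃ g ∈ Ser2, row N 0 F (e i).1 (e i).2.1 (e i).2.2 - r (e i).1 (e i).2.1 (e i).2.2 =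
        2 ^ M * g := by
    intro i
    obtain ⟨h1, h2, h3⟩ := (hmem _).1 (heι i)
    exact hr _ _ _ h1 h2 h3
  obtain ⟨c', hc', ⟨i1, hi1⟩, g, hg, hsum⟩ := hp V _ hVf hVr ι.card
    (fun i => r (e i).1 (e i).2.1 (e i).2.2) (fun i => (hri i).1) (fun i => (hri i).2.1) M h hrank
  let c : ℕ → ℕ → ℕ → ℤ := fun j k b => if hh : (j, k, b) ∈ ι then c' (eq ⟨(j, k, b), hh⟩) else 0
  have hce : ∀ i, c (e i).1 (e i).2.1 (e i).2.2 = c' i := by
    intro i
    have h1 : ((e i).1, (e i).2.1, (e i).2.2) ∈ ι := heι i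
    simp only [c]
    rw [dif_pos h1]
    congr 1
    exact eq.apply_symm_apply i
  refine ⟨c, ?_, ?_, ?_⟩
  · intro j k b
    simp only [c]
    split_ifs
    · exact hc' _
    · simp
  · obtain ⟨h1, h2, h3⟩ := (hmem _).1 (heι i1)
    exact ⟨_, h1, _, h2, _, h3, by rw [hce]; exact hi1⟩
  · choose g' hg' e' using fun i => (hri i).2.2
    refine ⟨g + ∑ i, (c' i : ℚ⟦X⟧) * g' i, add_mem hg (sum_mem fun i _ =>
      mul_mem (int_mem_Ser2 _) (hg' i)), ?_⟩
    have h1 : ∑ j ∈ Finset.range D, ∑ k ∈ Finset.range (K + 1), ∑ b ∈ Finset.range (N * K + 1),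
        (c j k b : ℚ⟦X⟧) * row N 0 F j k b =
        ∑ z ∈ ι, (c z.1 z.2.1 z.2.2 : ℚ⟦X⟧) * row N 0 F z.1 z.2.1 z.2.2 := by
      rw [Finset.sum_product]
      refine Finset.sum_congr rfl fun j _ => ?_
      rw [Finset.sum_product]
    have h2 : ∑ z ∈ ι, (c z.1 z.2.1 z.2.2 : ℚ⟦X⟧) * row N 0 F z.1 z.2.1 z.2.2 =
        ∑ i, (c' i : ℚ⟦X⟧) * row N 0 F (e i).1 (e i).2.1 (e i).2.2 := by
      rw [← Finset.sum_coe_sort ι]
      rw [← Equiv.sum_comp eq.symm]
      refine Finset.sum_congr rfl fun i _ => ?_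
      have := hce i
      simp only [e] at this ⊢
      rw [this]
    rw [h1, h2, mul_add, ← hsum, Finset.mul_sum, ← Finset.sum_add_distrib]
    refine Finset.sum_congr rfl fun i _ => ?_
    have := e' i
    linear_combination (c' i : ℚ⟦X⟧) * this

end

/-- **GPIG** -/
theorem gpig (hl : S_Lat) (ht : S_Tay) (hp : S_Pigeon) : S_GPig := by
  intro N G F hG hF hng hs
  obtain ⟨L⟩ := exists_LData hl G hG
  exact gpig_of L ht hp hF hng hs

end H635.GEN
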