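import Pool.Agent.Run7.h635.GEN.Stm

/-!
# NEG: an algebraic form of negative weight with polynomially bounded coefficients vanishes
-/

set_option autoImplicit false

open PowerSeries

namespace H635.GEN

open H809.OD H809.OD.Inst Differential MatrixGroups UpperHalfPlane
open scoped Differential ModularForm Manifold

theorem isFun_zero {h : ℚ⟦X⟧} (hf : IsFun h 0) : h = 0 := by
  ext n
  have key := ModularFormClass.qExpansion_coeff_unique (f := (0 : ModularForm 𝒮ℒ 12)) (h := 1)
    (c := fun n => ((coeff n h : ℚ) : ℂ)) one_pos (by simp) (fun τ => by simpa using hf τ) n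
  have e : (qExpansion 1 ((0 : ModularForm 𝒮ℒ 12) : ℍ → ℂ)) = 0 := by
    have : ((0 : ModularForm 𝒮ℒ 12) : ℍ → ℂ) = 0 := rfl
    rw [this, qExpansion_zero]
  rw [e] at key
  simpa using key

theorem neg (ha : S_NegA) (hb : S_NegB) (hc : S_NegC) : S_Neg := by
  intro N h hN halg hpg
  obtain ⟨f, hf, hd, hg⟩ := ha h hpg
  have h0 : f = 0 := hc N f hN hd hg (hb N h f halg hf hd)
  subst h0
  exact isFun_zero hf

end H635.GEN
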