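import Pool.Agent.Run7.h635.GEN.Stm
import Pool.Agent.Run7.h635.OD.Pig

/-! PIGEON: pigeonhole at the prime `2` in a finite dimensional space of power series. -/

set_option autoImplicit false

open PowerSeries

namespace H635.GEN

open H809.OD

lemma mem_Z2 (x : ℚ) : x ∈ Z2 ↔ Odd x.den := Iff.rfl

lemma mem_Ser2 (f : ℚ⟦X⟧) : f ∈ Ser2 ↔ ∀ n, coeff n f ∈ Z2 := by
  constructor
  · rintro ⟨g, rfl⟩ n
    rw [coeff_map]
    exact (coeff n g).2
  · intro hf
    refine ⟨PowerSeries.mk fun n => ⟨coeff n f, hf n⟩, ?_⟩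
    ext n
    rw [coeff_map, coeff_mk]
    rfl

/-- `x ∈ Z2` is `2 y` with `y ∈ Z2` or a unit -/
lemma Z2_cases (x : ℚ) (hx : x ∈ Z2) : (∃ y ∈ Z2, x = 2 * y) ∨ x⁻¹ ∈ Z2 := by
  rw [mem_Z2] at hx
  rcases Int.even_or_odd x.num with h | h
  · left
    obtain ⟨m, hm⟩ := h
    refine ⟨m / x.den, ?_, ?_⟩
    · rw [mem_Z2]
      have h1 : ((m : ℚ) / (x.den : ℚ)).den ∣ x.den := by
        have := Rat.den_dvd m x.den
        exact_mod_cast this
      exact Odd.of_dvd_nat hx h1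
    · conv_lhs => rw [← Rat.num_div_den x, hm]
      push_cast
      ring
  · right
    rw [mem_Z2]
    have h0 : x.num ≠ 0 := by rintro h1; rw [h1] at h; simp at h
    have h1 : (x⁻¹).den ∣ x.num.natAbs := by
      have e : x⁻¹ = (x.den : ℚ) / (x.num : ℚ) := by
        conv_lhs => rw [← Rat.num_div_den x]
        rw [inv_div]
      have := Rat.den_dvd x.den x.num
      rw [e]
      have h2 : (((((x.den : ℤ) : ℚ) / (x.num : ℚ)).den : ℕ) : ℤ) ∣ x.num := by
        rw [Rat.divInt_eq_div] at this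
        exact this
      have h3 := Int.natCast_dvd.1 h2
      simpa using h3
    exact Odd.of_dvd_nat (Int.natAbs_odd.2 h) h1

lemma two_Z2 : (2 : ℚ) ∈ Z2 := ofNat_mem Z2 2

/-- few positions control divisibility by `2` -/
lemma exists_pos (R : ℕ) : ∀ (V : Submodule ℚ ℚ⟦X⟧), FiniteDimensional ℚ V →
    Module.finrank ℚ V ≤ R → ∃ S : Finset ℕ, S.card ≤ R ∧ ∀ x ∈ V, x ∈ Ser2 →
      (∀ n ∈ S, ∃ z ∈ Z2, coeff n x = 2 * z) → ∃ g ∈ Ser2, x = 2 * g := by
  classical
  induction R with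
  | zero =>
    intro V hV hR
    refine ⟨∅, by simp, fun x hx _ _ => ⟨0, zero_mem _, ?_⟩⟩
    have h1 : Module.finrank ℚ V = 0 := Nat.le_zero.1 hR
    have h2 : V = ⊥ := Submodule.finrank_eq_zero.1 h1
    rw [h2, Submodule.mem_bot] at hx
    rw [hx, mul_zero]
  | succ R ih =>
    intro V hV hR
    by_cases hall : ∀ x ∈ V, x ∈ Ser2 → ∀ n, ∃ z ∈ Z2, coeff n x = 2 * z
    · refine ⟨∅, by simp, fun x hx hs _ => ?_⟩
      choose z hz hz2 using hall x hx hs
      refine ⟨PowerSeries.mk z, (mem_Ser2 _).2 fun n => by rw [coeff_mk]; exact hz n, ?_⟩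
      ext n
      rw [show (2 : ℚ⟦X⟧) = C (2 : ℚ) from (map_ofNat C 2).symm, coeff_C_mul, coeff_mk, hz2]
    · push Not at hall
      obtain ⟨x0, hx0, hs0, n0, hn0⟩ := hall
      have hu0 : (coeff n0 x0)⁻¹ ∈ Z2 := by
        rcases Z2_cases (coeff n0 x0) ((mem_Ser2 _).1 hs0 n0) with ⟨y, hy, e⟩ | h
        · exact absurd e (hn0 y hy)
        · exact h
      have hne : coeff n0 x0 ≠ 0 := by
        intro h
        exact hn0 0 (zero_mem _) (by rw [h, mul_zero])
      let V' : Submodule ℚ ℚ⟦X⟧ := V ⊓ LinearMap.ker (coeff n0 : ℚ⟦X⟧ →ₗ[ℚ] ℚ)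
      have hle : V' ≤ V := inf_le_left
      have hV' : FiniteDimensional ℚ V' := Submodule.finiteDimensional_of_le hle
      have hlt : V' < V := by
        refine lt_of_le_of_ne hle fun h => hne ?_
        have : x0 ∈ V' := h ▸ hx0
        exact (Submodule.mem_inf.1 this).2
      have hR' : Module.finrank ℚ V' ≤ R := by
        have := Submodule.finrank_lt_finrank_of_lt hlt
        omega
      obtain ⟨S, hS, hS2⟩ := ih V' hV' hR'
      refine ⟨insert n0 S, (Finset.card_insert_le _ _).trans (by omega), fun x hx hs hall => ?_⟩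
      obtain ⟨z, hz, hz2⟩ := hall n0 (Finset.mem_insert_self _ _)
      set r : ℚ := z * (coeff n0 x0)⁻¹ with hr
      have hrZ : r ∈ Z2 := mul_mem hz hu0
      set x' : ℚ⟦X⟧ := x - (2 * r) • x0 with hx'
      have hx'V : x' ∈ V' := by
        refine Submodule.mem_inf.2 ⟨V.sub_mem hx (V.smul_mem _ hx0), ?_⟩
        rw [LinearMap.mem_ker, hx', map_sub, map_smul, hz2, hr, smul_eq_mul]
        field_simp
        ring
      have hcoef : ∀ n, coeff n x' = coeff n x - 2 * (r * coeff n x0) := by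
        intro n
        rw [hx', map_sub, map_smul, smul_eq_mul]; ring
      have hx's : x' ∈ Ser2 := by
        rw [mem_Ser2]
        intro n
        rw [hcoef]
        exact sub_mem ((mem_Ser2 _).1 hs n) (mul_mem two_Z2 (mul_mem hrZ ((mem_Ser2 _).1 hs0 n)))
      obtain ⟨g, hg, e⟩ := hS2 x' hx'V hx's (fun n hn => by
        obtain ⟨y, hy, hy2⟩ := hall n (Finset.mem_insert_of_mem hn)
        exact ⟨y - r * coeff n x0, sub_mem hy (mul_mem hrZ ((mem_Ser2 _).1 hs0 n)), by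
          rw [hcoef, hy2]; ring⟩)
      refine ⟨g + r • x0, add_mem hg ?_, ?_⟩
      · rw [mem_Ser2]
        intro n
        rw [map_smul, smul_eq_mul]
        exact mul_mem hrZ ((mem_Ser2 _).1 hs0 n)
      · have e2 : x = x' + (2 * r) • x0 := by rw [hx']; ring
        rw [e2, e, mul_add, mul_smul, show (2 : ℚ⟦X⟧) * (r • x0) = (2 : ℚ) • (r • x0) by
          rw [Algebra.smul_def (2 : ℚ), map_ofNat]]

/-- divisibility by `2^M` -/
lemma pos_pow {V : Submodule ℚ ℚ⟦X⟧} {S : Finset ℕ} (hS : ∀ x ∈ V, x ∈ Ser2 →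
      (∀ n ∈ S, ∃ z ∈ Z2, coeff n x = 2 * z) → ∃ g ∈ Ser2, x = 2 * g) (M : ℕ) :
    ∀ x ∈ V, x ∈ Ser2 → (∀ n ∈ S, ∃ z ∈ Z2, coeff n x = 2 ^ M * z) →
      ∃ g ∈ Ser2, x = 2 ^ M * g := by
  induction M with
  | zero => intro x _ hs _; exact ⟨x, hs, by simp⟩
  | succ M ih =>
    intro x hx hs hall
    obtain ⟨g, hg, e⟩ := hS x hx hs (fun n hn => by
      obtain ⟨z, hz, hz2⟩ := hall n hn
      exact ⟨2 ^ M * z, mul_mem (pow_mem two_Z2 M) hz, by rw [hz2, pow_succ]; ring⟩)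
    have hcg : ∀ n, coeff n x = 2 * coeff n g := by
      intro n
      rw [e, show (2 : ℚ⟦X⟧) = C (2 : ℚ) from (map_ofNat C 2).symm, coeff_C_mul]
    have hgV : g ∈ V := by
      have e2 : g = (1 / 2 : ℚ) • x := by
        ext n
        rw [map_smul, hcg, smul_eq_mul]
        ring
      rw [e2]
      exact V.smul_mem _ hx
    obtain ⟨g', hg', e'⟩ := ih g hgV hg (fun n hn => by
      obtain ⟨z, hz, hz2⟩ := hall n hn
      refine ⟨z, hz, ?_⟩
      rw [hcg, pow_succ] at hz2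
      linear_combination (1 / 2 : ℚ) * hz2)
    exact ⟨g', hg', by rw [e, e', pow_succ]; ring⟩

/-- common odd denominator -/
lemma exists_odd_den {ι : Type} (s : Finset ι) (f : ι → ℚ) (hf : ∀ i ∈ s, f i ∈ Z2) :
    ∃ a : ℕ, Odd a ∧ ∀ i ∈ s, ∃ z : ℤ, (a : ℚ) * f i = z := by
  classical
  refine ⟨∏ i ∈ s, (f i).den, Finset.prod_induction _ Odd (fun a b => Odd.mul) odd_one fun i hi => hf i hi, fun i hi => ?_⟩
  refine ⟨(∏ j ∈ s.erase i, ((f j).den : ℤ)) * (f i).num, ?_⟩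
  rw [← Finset.mul_prod_erase s _ hi]
  have h1 : ((f i).den : ℚ) * f i = (f i).num := by
    have := Rat.mul_den_eq_num (f i)
    rw [mul_comm]; exact this
  push_cast
  linear_combination (∏ j ∈ s.erase i, ((f j).den : ℚ)) * h1

theorem pigeon : S_Pigeon := by
  classical
  intro V R hV hR n x hxV hxS M h hlt
  obtain ⟨S, hScard, hS⟩ := exists_pos R V hV hR
  obtain ⟨a, ha, haz⟩ := exists_odd_den (Finset.univ : Finset (S × Fin n))
    (fun z => coeff (z.1 : ℕ) (x z.2)) (fun z _ => (mem_Ser2 _).1 (hxS z.2) z.1)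
  choose! coef hcoef using haz
  have hcard : (2 ^ M) ^ Fintype.card S < (2 ^ h) ^ Fintype.card (Fin n) := by
    rw [← pow_mul, ← pow_mul, Fintype.card_fin, Fintype.card_coe]
    refine Nat.pow_lt_pow_right (by norm_num) (lt_of_le_of_lt ?_ hlt)
    exact Nat.mul_le_mul_left M hScard
  obtain ⟨c, hc1, hc2, hc3⟩ := Run7.h635.OD.siegel (I := Fin n) (L := S) (2 ^ M) h (by positivity)
    (fun l i => coef (l, i)) hcard
  refine ⟨c, hc1, Function.ne_iff.1 hc2, ?_⟩
  refine pos_pow hS M _ (sum_mem fun i _ => ?_) (sum_mem fun i _ => mul_mem ?_ (hxS i)) ?_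
  · rw [← zsmul_eq_mul]
    exact zsmul_mem (hxV i) _
  · exact intCast_mem _ _
  · intro l hl
    obtain ⟨m, hm⟩ := hc3 ⟨l, hl⟩
    have ha0 : (a : ℚ) ≠ 0 := by
      have := ha.pos
      exact_mod_cast (by omega : a ≠ 0)
    refine ⟨m / a, ?_, ?_⟩
    · rw [mem_Z2]
      have h1 : ((m : ℚ) / (a : ℚ)).den ∣ a := by
        have := Rat.den_dvd m a
        exact_mod_cast this
      exact Odd.of_dvd_nat ha h1
    · have h1 : coeff l (∑ i, (c i : ℚ⟦X⟧) * x i) = ∑ i, (c i : ℚ) * coeff l (x i) := by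
        rw [map_sum]
        refine Finset.sum_congr rfl fun i _ => ?_
        rw [show ((c i : ℤ) : ℚ⟦X⟧) = C (c i : ℚ) by simp, coeff_C_mul]
      have h2 : (a : ℚ) * ∑ i, (c i : ℚ) * coeff l (x i) = 2 ^ M * m := by
        have h3 : ((∑ i, c i * coef (⟨l, hl⟩, i) : ℤ) : ℚ) = ((((2 ^ M : ℕ) : ℤ) * m : ℤ) : ℚ) := by
          rw [hm]
        push_cast at h3
        rw [← h3, Finset.mul_sum]
        refine Finset.sum_congr rfl fun i _ => ?_
        have h4 := hcoef (⟨l, hl⟩, i) (Finset.mem_univ _)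
        simp only at h4
        rw [← h4]
        ring
      rw [h1]
      field_simp
      linear_combination h2

end H635.GEN
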