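import Pool.Agent.Run7.h809.OD.Stm2
import Pool.Agent.Run7.h809.OD.Inst
import Pool.Agent.Run7.h594.OD.NearB
import Pool.Agent.Run7.h635.OD.L1

/-!
# Ordinary primes of eigenforms of arbitrary level: statements

`G` is a power series which is algebraic over `ℚ(u)`, `f = w^(N+2) G = ∑ a_n q^n` has odd exponents
only, `F = ∑ (a_n / n) q^n`.
-/

set_option autoImplicit false

open PowerSeries

namespace H635.GEN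

open H809.OD H809.OD.Inst Differential MatrixGroups UpperHalfPlane
open scoped Differential ModularForm Manifold

/-- `Φ ↦ Φ(u, G)` -/
noncomputable def ev2 (G : ℚ⟦X⟧) : Polynomial (Polynomial ℚ) →+* ℚ⟦X⟧ :=
  Polynomial.eval₂RingHom (Polynomial.aeval u : Polynomial ℚ →ₐ[ℚ] ℚ⟦X⟧).toRingHom G

/-- `G` is algebraic over `ℚ(u)` -/
def AlgU (G : ℚ⟦X⟧) : Prop := ∃ Φ : Polynomial (Polynomial ℚ), Φ ≠ 0 ∧ ev2 G Φ = 0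

/-- polynomially bounded coefficients -/
def PolyGrowth (F : ℚ⟦X⟧) : Prop :=
  ∃ (C : ℝ) (A : ℕ), ∀ n : ℕ, |((coeff n F : ℚ) : ℝ)| ≤ C * ((n : ℝ) + 1) ^ A

/-! ### the zero estimate -/

/-- NOSOL: `c F + const` is not in `w^N K[ζ]_{≤ N}`, `K` the algebraic closure of `ℚ(u)` in
`ℚ((q))`, `c ≠ 0`. -/
def NoSol (N : ℕ) (G : ℚ⟦X⟧) : Prop := ∀ (c : ℚ) (A : ℕ → Lf), c ≠ 0 →
  (∀ i, ∃ P : Polynomial (Polynomial ℚ), P ≠ 0 ∧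
    Polynomial.eval₂ (io.comp (Polynomial.aeval u : Polynomial ℚ →ₐ[ℚ] ℚ⟦X⟧).toRingHom) (A i) P = 0) →
  (io w ^ N * ∑ i ∈ Finset.range (N + 1), A i * io zt ^ i)′ ≠ (c : Lf) * (io w ^ N * io G)

/-- NEG: an algebraic form of negative weight with polynomially bounded coefficients vanishes. -/
def S_Neg : Prop := ∀ (N : ℕ) (h : ℚ⟦X⟧), 1 ≤ N → AlgU (w ^ N * h) → PolyGrowth h → h = 0

/-- the function on the upper half-plane attached to a power series in `q = e(τ)` -/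
def IsFun (h : ℚ⟦X⟧) (f : ℍ → ℂ) : Prop := ∀ τ : ℍ,
  HasSum (fun n : ℕ => ((coeff n h : ℚ) : ℂ) * Function.Periodic.qParam 1 (τ : ℂ) ^ n) (f τ)

/-- NEGA: convergence and growth. -/
def S_NegA : Prop := ∀ h : ℚ⟦X⟧, PolyGrowth h → ∃ f : ℍ → ℂ, IsFun h f ∧ MDiff f ∧
  ∃ (C : ℝ) (A : ℕ), ∀ τ : ℍ, ‖f τ‖ ≤ C * (1 + 1 / τ.im) ^ A

/-- NEGB: an algebraic form of weight `-N` has a finite orbit under `SL(2, ℤ)`. -/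
def S_NegB : Prop := ∀ (N : ℕ) (h : ℚ⟦X⟧) (f : ℍ → ℂ), AlgU (w ^ N * h) → IsFun h f → MDiff f →
  (Set.range fun γ : SL(2, ℤ) => f ∣[(-(N : ℤ))] γ).Finite

/-- NEGC: a holomorphic function of weight `-N < 0`, of moderate growth, with a finite orbit
under `SL(2, ℤ)`, vanishes (the 24th power times the discriminant is a cusp form of negative
weight on the stabilizer). -/
def S_NegC : Prop := ∀ (N : ℕ) (f : ℍ → ℂ), 1 ≤ N → MDiff f →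
  (∃ (C : ℝ) (A : ℕ), ∀ τ : ℍ, ‖f τ‖ ≤ C * (1 + 1 / τ.im) ^ A) →
  (Set.range fun γ : SL(2, ℤ) => f ∣[(-(N : ℤ))] γ).Finite → f = 0

/-- NOSOL from NEG: `h = A_N / w^N` satisfies `θ^(N+1) h = c' f`. -/
def S_NoSol : Prop := ∀ (N : ℕ) (G : ℚ⟦X⟧), 1 ≤ N → G ≠ 0 → coeff 0 G = 0 →
  PolyGrowth (w ^ (N + 2) * G) → NoSol N G

/-- ORD: orders of vanishing of polynomials in `u` and `G`. -/
def S_Ord : Prop := ∀ G : ℚ⟦X⟧, AlgU G → ∃ d : ℕ, 1 ≤ d ∧ ∃ e : ℕ,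
  ∀ (Q : Polynomial (Polynomial ℚ)) (s t : ℕ), (∀ i, (Q.coeff i).natDegree ≤ s) →
  Q.natDegree ≤ t → ev2 G Q ≠ 0 → ∃ n ≤ d * s + e * t, coeff n (ev2 G Q) ≠ 0

/-- GZERO: the zero estimate. -/
def S_GZero : Prop := ∀ (N : ℕ) (G F : ℚ⟦X⟧), 1 ≤ N → AlgU G → th F = w ^ (N + 2) * G →
  NoSol N G → ∃ d : ℕ, 1 ≤ d ∧ ∀ K κ : ℕ, N * K ≤ κ → ∃ C : ℕ, ∀ D : ℕ,
  ∀ c : ℕ → ℕ → Polynomial ℚ, (∀ k b, (c k b).natDegree ≤ D) →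
  (∀ k b, c k b ≠ 0 → k ≤ K ∧ b + N * k ≤ κ) → (∃ k b, c k b ≠ 0) →
  ∃ n ≤ d * ((K + 1) * (κ + 1)) * D + C,
    coeff n (∑ k ∈ Finset.range (K + 1), ∑ b ∈ Finset.range (κ + 1),
      Polynomial.aeval u (c k b) * zt ^ b * (F * wi ^ N) ^ k) ≠ 0

/-! ### the 2-adic part -/

/-- the span of `u^i G^l`, `i ≤ s`, `l < d` -/
noncomputable def Lam (G : ℚ⟦X⟧) (d s : ℕ) : Submodule ℚ ℚ⟦X⟧ :=
  Submodule.span ℚ {x | ∃ i ≤ s, ∃ l < d, x = u ^ i * G ^ l}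

/-- LAT: multiplication and derivation in coordinates. -/
def S_Lat : Prop := ∀ G : ℚ⟦X⟧, AlgU G → ∃ (d : ℕ) (B : Polynomial ℚ) (c : ℕ), 1 ≤ d ∧ B ≠ 0 ∧
  (∀ s s' x y, x ∈ Lam G d s → y ∈ Lam G d s' →
    Polynomial.aeval u B * (x * y) ∈ Lam G d (s + s' + c)) ∧
  (∀ s x, x ∈ Lam G d s → Polynomial.aeval u B * (wi ^ 2 * th x) ∈ Lam G d (s + c)) ∧
  Polynomial.aeval u B * G ∈ Lam G d c

/-- the terms of the Taylor expansion of `F = - (F(-q) - F(q)) / 2` -/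
noncomputable def yy (F : ℚ⟦X⟧) (j : ℕ) : ℚ⟦X⟧ :=
  C (-1 / 2 * ((-2) ^ (j + 1) / (Nat.factorial (j + 1) : ℚ))) * H594.OD.si ^ (2 * (j + 1)) *
    H594.OD.TJ (j + 1) F

/-- TAY: Taylor expansion `q → -q`; the `j`-th term is divisible by `2^j` because the Hasse
derivatives with respect to `u` preserve the 2-integral series. -/
def S_Tay : Prop := ∀ F : ℚ⟦X⟧, F ∈ Ser2 → ng F = -F →
  (∀ j, ∃ g ∈ Ser2, yy F j = 2 ^ j * g) ∧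
  ∀ M, ∃ g ∈ Ser2, F - ∑ j ∈ Finset.range M, yy F j = 2 ^ M * g

/-- PIGEON: pigeonhole at the prime `2` in a finite dimensional space of power series. -/
def S_Pigeon : Prop := ∀ (V : Submodule ℚ ℚ⟦X⟧) (R : ℕ), FiniteDimensional ℚ V →
  Module.finrank ℚ V ≤ R → ∀ (n : ℕ) (x : Fin n → ℚ⟦X⟧), (∀ i, x i ∈ V) → (∀ i, x i ∈ Ser2) →
  ∀ M h : ℕ, M * R < h * n → ∃ c : Fin n → ℤ, (∀ i, |c i| < 2 ^ h) ∧ (∃ i, c i ≠ 0) ∧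
  ∃ g ∈ Ser2, ∑ i, (c i : ℚ⟦X⟧) * x i = 2 ^ M * g

/-- GPIG: the auxiliary function. -/
def S_GPig : Prop := ∀ (N : ℕ) (G F : ℚ⟦X⟧), AlgU G → th F = w ^ (N + 2) * G → ng F = -F →
  F ∈ Ser2 → ∃ c0 : ℕ, 1 ≤ c0 ∧ ∀ K D M h : ℕ,
  M * (c0 * (2 * N * K + 1) * (D + c0 * (M + K + 1))) < h * (D * ((K + 1) * (N * K + 1))) →
  ∃ c : ℕ → ℕ → ℕ → ℤ, (∀ j k b, |c j k b| < 2 ^ h) ∧
    (∃ j < D, ∃ k ≤ K, ∃ b ≤ N * K, c j k b ≠ 0) ∧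
    ∃ g ∈ Ser2,
      ∑ j ∈ Finset.range D, ∑ k ∈ Finset.range (K + 1), ∑ b ∈ Finset.range (N * K + 1),
        (c j k b : ℚ⟦X⟧) * row N 0 F j k b = 2 ^ M * g

/-! ### growth and the main theorem -/

/-- GGROW: growth of the rows. -/
def S_GGrow : Prop := ∀ (N : ℕ) (F : ℚ⟦X⟧), PolyGrowth F →
  ∃ (C : ℝ) (E : ℕ), 1 ≤ C ∧ ∀ r : ℝ, 0 < r → r < 1 → ∀ K D n j k b : ℕ, j ≤ D → k ≤ K →
    b ≤ N * K →
    |((coeff n (w ^ (D + 4 * N * K) * row N 0 F j k b) : ℚ) : ℝ)| * r ^ n ≤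
      (2 / (1 - r)) ^ (2 * D) * (C * (n + 1) * (2 / (1 - r))) ^ (E * (K + 1))

/-- **GMAIN**: the main theorem for `G` algebraic over `ℚ(u)`. -/
def S_GMain : Prop := ∀ (N : ℕ) (G : ℚ⟦X⟧) (a : ℕ → ℤ) (P : ℕ → Prop), 1 ≤ N → AlgU G →
  G ≠ 0 → PolyGrowth (w ^ (N + 2) * G) → (∀ n, coeff n (w ^ (N + 2) * G) = (a n : ℚ)) →
  (∀ n, Even n → a n = 0) →
  (∀ p, p.Prime → ¬ P p → ∀ n < p ^ 2, p ∣ n → (p : ℤ) ∣ a n) →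
  ∃ c : ℝ, 0 < c ∧ ∃ x0 : ℕ, ∀ x : ℕ, x0 ≤ x → c * x ≤
    (by classical exact ∑ p ∈ (Finset.range (x + 1)).filter (fun p => p.Prime ∧ P p), Real.log p)

/-! ### modular forms -/

/-- `G` is algebraic over `ℂ(u)` -/
def AlgC (G : ℂ⟦X⟧) : Prop := ∃ Φ : Polynomial (Polynomial ℂ), Φ ≠ 0 ∧
  Polynomial.eval₂ (Polynomial.aeval (Run7.h635.OD.upc u) : Polynomial ℂ →ₐ[ℂ] ℂ⟦X⟧).toRingHom
    G Φ = 0

/-- ALG: `q`-expansions of modular forms of weight `k` on arithmetic groups which contain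
`z ↦ z + 1` are algebraic over `ℂ(u, w)`. -/
def S_Alg : Prop := ∀ (𝒢 : Subgroup (GL (Fin 2) ℝ)) [𝒢.IsArithmetic], (1 : ℝ) ∈ 𝒢.strictPeriods →
  ∀ (k : ℕ) (f : ModularForm 𝒢 (k : ℤ)),
  AlgC (UpperHalfPlane.qExpansion 1 f * Run7.h635.OD.upc wi ^ k)

/-- DESC: descent from `ℂ` to `ℚ`. -/
def S_Desc : Prop := ∀ G : ℚ⟦X⟧, AlgC (Run7.h635.OD.upc G) → AlgU G

/-- ODD: the odd part. -/
def S_Odd : Prop := ∀ (k : ℕ) (G : ℚ⟦X⟧), AlgU G → AlgU (G - (1 - 8 * u) ^ k * ng G)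

/-- BND: coefficients of cusp forms grow polynomially. -/
def S_Bnd : Prop := ∀ (𝒢 : Subgroup (GL (Fin 2) ℝ)) [𝒢.IsArithmetic], (1 : ℝ) ∈ 𝒢.strictPeriods →
  ∀ (k : ℤ) (f : CuspForm 𝒢 k), ∃ (C : ℝ) (A : ℕ), ∀ n : ℕ,
  ‖(UpperHalfPlane.qExpansion 1 f).coeff n‖ ≤ C * ((n : ℝ) + 1) ^ A

end H635.GEN
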