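import Pool.Agent.Run7.h635.GEN.GMain2
import Pool.Agent.Run7.h635.GEN.GPig
import Pool.Agent.Run7.h635.GEN.Pigeon
import Pool.Agent.Run7.h635.GEN.Neg
import Pool.Agent.Run7.h635.GEN.Core
import Pool.Agent.Run7.h809.GEN.GZero
import Pool.Agent.Run7.h632.GEN.Ord
import Pool.Agent.Run7.h594.GEN.Lat
import Pool.Agent.Run7.h594.GEN.Tay
import Pool.Agent.Run7.h709.GEN.GGrow
import Pool.Agent.Run7.h483.GEN.NegA
import Pool.Agent.Run7.h483.GEN.NegC
import Pool.Agent.Run7.h106.GEN.NegB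
import Pool.Agent.Run7.h333.GEN.Alg
import Pool.Agent.Run7.h250.GEN.DescK
import Pool.Agent.Run7.h250.GEN.Desc
import Pool.Agent.Run7.h250.GEN.Odd
import Pool.Agent.Run7.h635.PER.Latt
import Pool.Agent.Run7.h13.PER.Bol
import Pool.Agent.Run7.h13.PER.Eix
import Pool.Agent.Run7.h632.PER.Hec
import Pool.Agent.Run7.h632.PER.Poly
import Pool.Agent.Run7.h639.PER.Fld
import Pool.Agent.Run7.h639.PER.Rp2

/-!
# Assembly
-/

set_option autoImplicit false

namespace H635.GEN

theorem gmain_holds : S_GMain :=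
  gmain' (H809.GEN.gzero Run7.h632.GEN.ord) (gpig H594.GEN.lat H594.GEN.tay pigeon)
    Run7.h709.GEN.ggrow
    (H250.GEN.nosol (neg H483.GEN.nega Run7.h106.GEN.negb H483.GEN.negc))

theorem descK_holds : S_DescK := fun _ _ _ φ _ h => H250.GEN.descK φ h

end H635.GEN
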