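import Mathlib

/-!
# Closed points over an infinite set of primes are dense
-/

set_option autoImplicit false

namespace H635.GEN

open PrimeSpectrum TopologicalSpace

theorem isJacobsonRing_int : IsJacobsonRing ℤ := by
  rw [isJacobsonRing_iff_prime_eq]
  intro P hP
  by_cases h : P = ⊥
  · subst h
    refine le_antisymm (fun x hx => ?_) Ideal.le_jacobson
    rw [Ideal.mem_bot]
    by_contra hx0
    obtain ⟨p, hpx, hp⟩ := Nat.exists_infinite_primes (x.natAbs + 1)
    have hmax : (Ideal.span {(p : ℤ)}).IsMaximal := by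
      have h1 : (Ideal.span {(p : ℤ)}).IsPrime := by
        rw [Ideal.span_singleton_prime (by exact_mod_cast hp.ne_zero)]
        exact Nat.prime_iff_prime_int.1 hp
      exact h1.isMaximal (by
        rw [Ne, Ideal.span_singleton_eq_bot]
        exact_mod_cast hp.ne_zero)
    have h2 : x ∈ Ideal.span {(p : ℤ)} := by
      rw [Ideal.jacobson, Submodule.mem_sInf] at hx
      exact hx _ ⟨bot_le, hmax⟩
    rw [Ideal.mem_span_singleton] at h2
    have h3 := Int.natAbs_dvd_natAbs.2 h2
    rw [Int.natAbs_natCast] at h3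
    have := Nat.le_of_dvd (Int.natAbs_pos.2 hx0) h3
    omega
  · exact Ideal.jacobson_eq_self_of_isMaximal (H := hP.isMaximal h)

/-- In the spectrum of a domain of characteristic `0` which is finitely generated over `ℤ`, the
closed points whose residue characteristic lies in a given infinite set of primes are dense. -/
theorem dense_closed {S : Set ℕ} (hS : S.Infinite) (hp : ∀ p ∈ S, p.Prime) (A : Type*)
    [CommRing A] [IsDomain A] [CharZero A] [Algebra.FiniteType ℤ A] :
    Dense {s : PrimeSpectrum A | s.asIdeal.IsMaximal ∧ ∃ p ∈ S, (p : A) ∈ s.asIdeal} := by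
  have : IsJacobsonRing ℤ := isJacobsonRing_int
  have hJ : IsJacobsonRing A := isJacobsonRing_of_finiteType (A := ℤ)
  have : Algebra.FinitePresentation ℤ A := Algebra.FinitePresentation.of_finiteType.1 inferInstance
  have hopen : IsOpenMap (PrimeSpectrum.comap (algebraMap ℤ A)) :=
    PrimeSpectrum.isOpenMap_comap_of_hasGoingDown_of_finitePresentation
  rw [dense_iff_inter_open]
  intro U hU hne
  obtain ⟨I, hI⟩ := (PrimeSpectrum.isClosed_iff_zeroLocus_ideal _).1
    (isClosed_compl_iff.2 (hopen U hU))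
  have hI0 : I ≠ ⊥ := by
    rintro rfl
    obtain ⟨x, hx⟩ := hne
    have h1 : PrimeSpectrum.comap (algebraMap ℤ A) x ∈
        (PrimeSpectrum.comap (algebraMap ℤ A) '' U)ᶜ := by
      rw [hI]
      simp
    exact h1 ⟨x, hx, rfl⟩
  obtain ⟨n, hnI, hn0⟩ := Submodule.exists_mem_ne_zero_of_ne_bot hI0
  obtain ⟨p, hpS, hpn⟩ := hS.exists_gt n.natAbs
  have hpp := hp p hpS
  have hprime : (Ideal.span {(p : ℤ)}).IsPrime := by
    rw [Ideal.span_singleton_prime (by exact_mod_cast hpp.ne_zero)]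
    exact Nat.prime_iff_prime_int.1 hpp
  have hmem : (⟨Ideal.span {(p : ℤ)}, hprime⟩ : PrimeSpectrum ℤ) ∈
      PrimeSpectrum.comap (algebraMap ℤ A) '' U := by
    by_contra h
    have h1 : (⟨Ideal.span {(p : ℤ)}, hprime⟩ : PrimeSpectrum ℤ) ∈ zeroLocus (I : Set ℤ) := by
      rw [← hI]; exact h
    have h2 : n ∈ Ideal.span {(p : ℤ)} := h1 hnI
    rw [Ideal.mem_span_singleton] at h2
    have h3 := Int.natAbs_dvd_natAbs.2 h2
    rw [Int.natAbs_natCast] at h3
    have := Nat.le_of_dvd (Int.natAbs_pos.2 hn0) h3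
    omega
  obtain ⟨q, hqU, hq⟩ := hmem
  have hpq : (p : A) ∈ q.asIdeal := by
    have h1 : (p : ℤ) ∈ (PrimeSpectrum.comap (algebraMap ℤ A) q).asIdeal := by
      rw [hq]
      exact Ideal.mem_span_singleton_self _
    simpa using h1
  have hlc : IsLocallyClosed (U ∩ zeroLocus {(p : A)}) :=
    hU.isLocallyClosed.inter (isClosed_zeroLocus _).isLocallyClosed
  obtain ⟨s, ⟨hsU, hsp⟩, hsc⟩ := nonempty_inter_closedPoints
    (⟨q, hqU, by simpa using hpq⟩ : (U ∩ zeroLocus {(p : A)}).Nonempty) hlc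
  refine ⟨s, hsU, ?_, p, hpS, by simpa using hsp⟩
  exact (isClosed_singleton_iff_isMaximal s).1 hsc

/-- residue fields at maximal ideals of finitely generated rings are finite -/
theorem card_residue (A : Type*) [CommRing A] [Algebra.FiniteType ℤ A] (I : Ideal A) [I.IsMaximal]
    {p : ℕ} (hp : p.Prime) (hpI : (p : A) ∈ I) : ∃ r : ℕ, 1 ≤ r ∧ Nat.card (A ⧸ I) = p ^ r := by
  have : IsJacobsonRing ℤ := isJacobsonRing_int
  have : Fact p.Prime := ⟨hp⟩
  let _ : Field (A ⧸ I) := Ideal.Quotient.field I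
  have hp0 : (p : A ⧸ I) = 0 := by
    have := Ideal.Quotient.eq_zero_iff_mem.2 hpI
    simpa using this
  have : CharP (A ⧸ I) p := (CharP.charP_iff_prime_eq_zero hp).2 hp0
  let _ : Algebra (ZMod p) (A ⧸ I) := ZMod.algebra _ p
  have : Algebra.FiniteType ℤ (A ⧸ I) :=
    Algebra.FiniteType.of_surjective (Ideal.Quotient.mkₐ ℤ I) (Ideal.Quotient.mkₐ_surjective ℤ I)
  have : Module.Finite ℤ (A ⧸ I) := finite_of_finite_type_of_isJacobsonRing ℤ (A ⧸ I)
  have : IsScalarTower ℤ (ZMod p) (A ⧸ I) := inferInstance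
  have : Module.Finite (ZMod p) (A ⧸ I) := Module.Finite.of_restrictScalars_finite ℤ (ZMod p) _
  have : Finite (A ⧸ I) := Module.finite_of_finite (ZMod p)
  let _ : Fintype (A ⧸ I) := Fintype.ofFinite _
  obtain ⟨n, -, hn⟩ := FiniteField.card (A ⧸ I) p
  exact ⟨n, n.pos, by rw [Nat.card_eq_fintype_card, hn]⟩

end H635.GEN
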