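import Pool.Agent.Run7.h635.GEN.All

/-!
# Eigenforms of arbitrary level
-/

set_option autoImplicit false

open PowerSeries

namespace H635.GEN

open H809.OD MatrixGroups UpperHalfPlane CongruenceSubgroup Run7.h635.OD H635.PER

theorem latt_holds : S_Latt :=
  latt H635.PER.bol Run7.h632.PER.poly Run7.h632.PER.uniq H635.PER.eix
    Run7.h632.PER.hnf Run7.h632.PER.hec' H639.PER.rp2 H639.PER.rec H483.GEN.negc

/-- **Eigenforms of weight `≥ 3` and arbitrary level and character.** -/
theorem final (M k : ℕ) [NeZero M] (hk : 3 ≤ k) (χ : DirichletCharacter ℂ M)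
    (f : CuspForm (Gamma1 M) k) (hf : IsEigenform M k χ f) :
    PosLog (fun p => UnitAbove ((qExpansion 1 f).coeff p) p) ∧
      ∀ n, IsIntegral ℤ ((qExpansion 1 f).coeff n) := by
  have h1 : (1 : ℝ) ∈ (Gamma1 M : Subgroup (GL (Fin 2) ℝ)).strictPeriods := by simp
  have hcoef := fun p hp => (Run7.h632.PER.coef M k χ f (by omega) hf p hp).2
  have ha0 : (qExpansion 1 f).coeff 0 = 0 := CuspFormClass.qExpansion_coeff_zero f one_pos h1
  have hχ : ∀ p : ℕ, χ (p : ZMod M) = 0 ∨ χ (p : ZMod M) ^ (Nat.totient M) = 1 := by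
    intro p
    by_cases hu : IsUnit (p : ZMod M)
    · right
      obtain ⟨v, hv⟩ := hu
      rw [← hv, ← map_pow, ← Units.val_pow_eq_pow_val, ZMod.pow_totient, Units.val_one, map_one]
    · left
      exact MulChar.map_nonunit χ hu
  obtain ⟨hint, K, hK, hmem, C, A, hgr⟩ := H639.PER.fld k (Nat.totient M)
    (fun n => χ (n : ZMod M)) (fun n => (qExpansion 1 f).coeff n)
    (Nat.totient_pos.2 (Nat.pos_of_ne_zero (NeZero.ne M))) hχ ha0 hf.coeff_one hcoef
    (latt_holds M k χ f hk hf)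
  refine ⟨?_, hint⟩
  obtain ⟨N, rfl⟩ : ∃ N, k = N + 2 := ⟨k - 2, by omega⟩
  have := core Run7.h333.GEN.alg descK_holds H250.GEN.desc H250.GEN.odd gmain_holds
    theta_holds M N (NeZero.ne M) (by omega) (Gamma1 M) h1 f K (fun n => ⟨_, hmem n⟩)
    (fun n => rfl) (fun n => hint n) (Subtype.ext hf.coeff_one)
    (fun p hp _ n hpn => Subtype.ext (by
      have h2 := hcoef p hp n
      rw [if_neg hpn, sub_zero] at h2
      exact h2)) ⟨C, A, fun σ n => hgr σ n⟩
  exact this

end H635.GEN
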