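import Pool.Agent.Run7.h635.GEN.Fin

/-!
# Eigenforms of arbitrary level, corollaries
-/

set_option autoImplicit false

open PowerSeries

namespace H635.GEN

open H809.OD MatrixGroups UpperHalfPlane CongruenceSubgroup Run7.h635.OD H635.PER

/-- the same for primes not dividing the level -/
theorem final' (M k : ℕ) [NeZero M] (hk : 3 ≤ k) (χ : DirichletCharacter ℂ M)
    (f : CuspForm (Gamma1 M) k) (hf : IsEigenform M k χ f) :
    PosLog (fun p => ¬ p ∣ M ∧ UnitAbove ((qExpansion 1 f).coeff p) p) :=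
  H594.CY.remove_finite _ _ M (NeZero.ne M) (fun _ _ hpM h => ⟨hpM, h⟩) (final M k hk χ f hf).1

lemma PosLog.mono {P Q : ℕ → Prop} (h : ∀ p : ℕ, p.Prime → P p → Q p) (hP : PosLog P) :
    PosLog Q := by
  classical
  obtain ⟨c, hc, x0, h0⟩ := hP
  refine ⟨c, hc, x0, fun x hx => (h0 x hx).trans ?_⟩
  refine Finset.sum_le_sum_of_subset_of_nonneg ?_ ?_
  · intro p hp
    rw [Finset.mem_filter] at hp ⊢
    exact ⟨hp.1, hp.2.1, h p hp.2.1 hp.2.2⟩
  · intro p hp _
    rw [Finset.mem_filter] at hp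
    exact Real.log_nonneg (by exact_mod_cast hp.2.1.one_le)

/-- **Eigenforms with integral coefficients** -/
theorem final_int (M k : ℕ) [NeZero M] (hk : 3 ≤ k) (χ : DirichletCharacter ℂ M)
    (f : CuspForm (Gamma1 M) k) (hf : IsEigenform M k χ f) (b : ℕ → ℤ)
    (hb : ∀ n, (qExpansion 1 f).coeff n = b n) :
    PosLog (fun p => ¬ p ∣ M ∧ ¬ (p : ℤ) ∣ b p) := by
  refine PosLog.mono (fun p hp h => ⟨h.1, fun hd => h.2 ⟨1, ?_⟩⟩) (final' M k hk χ f hf)
  obtain ⟨c, hc⟩ := hd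
  have hp0 : (p : ℂ) ≠ 0 := by exact_mod_cast hp.ne_zero
  rw [hb p, hc, pow_one]
  have e : (((p : ℤ) * c : ℤ) : ℂ) / (p : ℂ) = ((c : ℤ) : ℂ) := by
    push_cast
    field_simp
  rw [e]
  exact isIntegral_algebraMap

end H635.GEN
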