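import Pool.Agent.Run7.h635.GEN.Stm
import Pool.Agent.Run7.h600.OD.Theta

/-! GPIG, part A: the filtered spaces. -/

set_option autoImplicit false

open PowerSeries

namespace H635.GEN

open H809.OD H594.OD

/-- the span of `u^i G^l ζ^b`, `i ≤ t`, `l < d`, `b ≤ n` -/
noncomputable def Mo (G : ℚ⟦X⟧) (d t n : ℕ) : Submodule ℚ ℚ⟦X⟧ :=
  Submodule.span ℚ {x | ∃ i ≤ t, ∃ l < d, ∃ b ≤ n, x = u ^ i * G ^ l * zt ^ b}

lemma Mo_mono {G : ℚ⟦X⟧} {d t t' n n' : ℕ} (ht : t ≤ t') (hn : n ≤ n') :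
    Mo G d t n ≤ Mo G d t' n' := by
  refine Submodule.span_mono ?_
  rintro x ⟨i, hi, l, hl, b, hb, rfl⟩
  exact ⟨i, hi.trans ht, l, hl, b, hb.trans hn, rfl⟩

lemma Lam_mul_zt {G : ℚ⟦X⟧} {d t n b : ℕ} (hb : b ≤ n) {x : ℚ⟦X⟧} (hx : x ∈ Lam G d t) :
    x * zt ^ b ∈ Mo G d t n := by
  unfold Lam at hx
  induction hx using Submodule.span_induction with
  | mem x hx =>
    obtain ⟨i, hi, l, hl, rfl⟩ := hx
    exact Submodule.subset_span ⟨i, hi, l, hl, b, hb, rfl⟩
  | zero => rw [zero_mul]; exact zero_mem _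
  | add x y _ _ hx hy => rw [add_mul]; exact add_mem hx hy
  | smul c x _ hx => rw [smul_mul_assoc]; exact Submodule.smul_mem _ _ hx

lemma Lam_mono {G : ℚ⟦X⟧} {d t t' : ℕ} (ht : t ≤ t') : Lam G d t ≤ Lam G d t' := by
  refine Submodule.span_mono ?_
  rintro x ⟨i, hi, l, hl, rfl⟩
  exact ⟨i, hi.trans ht, l, hl, rfl⟩

/-- induction principle: `Mo` is spanned by `x ζ^b`, `x ∈ Lam` -/
lemma Mo_ind {G : ℚ⟦X⟧} {d t n : ℕ} {p : ℚ⟦X⟧ → Prop} (h0 : p 0)
    (hadd : ∀ x y, p x → p y → p (x + y)) (hsmul : ∀ (c : ℚ) x, p x → p (c • x))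
    (hm : ∀ b ≤ n, ∀ x ∈ Lam G d t, p (x * zt ^ b)) {x : ℚ⟦X⟧} (hx : x ∈ Mo G d t n) : p x := by
  unfold Mo at hx
  induction hx using Submodule.span_induction with
  | mem x hx =>
    obtain ⟨i, hi, l, hl, b, hb, rfl⟩ := hx
    exact hm b hb _ (Submodule.subset_span ⟨i, hi, l, hl, rfl⟩)
  | zero => exact h0
  | add x y _ _ hx hy => exact hadd x y hx hy
  | smul c x _ hx => exact hsmul c x hx

lemma Lam_u {G : ℚ⟦X⟧} {d t : ℕ} (i : ℕ) {x : ℚ⟦X⟧} (hx : x ∈ Lam G d t) :
    u ^ i * x ∈ Lam G d (t + i) := by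
  unfold Lam at hx
  induction hx using Submodule.span_induction with
  | mem x hx =>
    obtain ⟨i', hi, l, hl, rfl⟩ := hx
    exact Submodule.subset_span ⟨i + i', by omega, l, hl, by rw [pow_add]; ring⟩
  | zero => rw [mul_zero]; exact zero_mem _
  | add x y _ _ hx hy => rw [mul_add]; exact add_mem hx hy
  | smul c x _ hx => rw [mul_smul_comm]; exact Submodule.smul_mem _ _ hx

lemma Lam_poly {G : ℚ⟦X⟧} {d t m : ℕ} (P : Polynomial ℚ) (hP : P.natDegree ≤ m) {x : ℚ⟦X⟧}
    (hx : x ∈ Lam G d t) : Polynomial.aeval u P * x ∈ Lam G d (t + m) := by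
  rw [Polynomial.aeval_eq_sum_range' (n := m + 1) (Nat.lt_succ_of_le hP), Finset.sum_mul]
  refine sum_mem fun i hi => ?_
  rw [smul_mul_assoc]
  refine Submodule.smul_mem _ _ (Lam_mono ?_ (Lam_u i hx))
  have := Finset.mem_range.1 hi
  omega

lemma Mo_poly {G : ℚ⟦X⟧} {d t n m : ℕ} (P : Polynomial ℚ) (hP : P.natDegree ≤ m) {x : ℚ⟦X⟧}
    (hx : x ∈ Mo G d t n) : Polynomial.aeval u P * x ∈ Mo G d (t + m) n := by
  refine Mo_ind (p := fun x => Polynomial.aeval u P * x ∈ Mo G d (t + m) n) ?_ ?_ ?_ ?_ hx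
  · rw [mul_zero]; exact zero_mem _
  · intro x y hx hy; rw [mul_add]; exact add_mem hx hy
  · intro c x hx; rw [mul_smul_comm]; exact Submodule.smul_mem _ _ hx
  · intro b hb x hx
    rw [← mul_assoc]
    exact Lam_mul_zt hb (Lam_poly P hP hx)

/-- the data of LAT, with constants adjusted -/
structure LData (G : ℚ⟦X⟧) where
  d : ℕ
  B : Polynomial ℚ
  c : ℕ
  hd : 1 ≤ d
  hB : B ≠ 0
  mul : ∀ s s' x y, x ∈ Lam G d s → y ∈ Lam G d s' →
    Polynomial.aeval u B * (x * y) ∈ Lam G d (s + s' + c)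
  der : ∀ s x, x ∈ Lam G d s → Polynomial.aeval u B * DD x ∈ Lam G d (s + c)
  gen : Polynomial.aeval u B * G ∈ Lam G d c
  deg : B.natDegree + 10 ≤ c

lemma exists_LData (hl : S_Lat) (G : ℚ⟦X⟧) (hG : AlgU G) : Nonempty (LData G) := by
  obtain ⟨d, B, c, hd, hB, h1, h2, h3⟩ := hl G hG
  refine ⟨⟨d, B, c + (B.natDegree + 10), hd, hB, ?_, ?_, ?_, by omega⟩⟩
  · intro s s' x y hx hy
    exact Lam_mono (by omega) (h1 s s' x y hx hy)
  · intro s x hx
    exact Lam_mono (by omega) (h2 s x hx)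
  · exact Lam_mono (by omega) h3

section

variable {G : ℚ⟦X⟧} (L : LData G)

lemma Mo_mul {t t' n n' : ℕ} {x y : ℚ⟦X⟧} (hx : x ∈ Mo G L.d t n) (hy : y ∈ Mo G L.d t' n') :
    Polynomial.aeval u L.B * (x * y) ∈ Mo G L.d (t + t' + L.c) (n + n') := by
  refine Mo_ind (p := fun x => Polynomial.aeval u L.B * (x * y) ∈
    Mo G L.d (t + t' + L.c) (n + n')) ?_ ?_ ?_ ?_ hx
  · rw [zero_mul, mul_zero]; exact zero_mem _
  · intro x y hx hy; rw [add_mul, mul_add]; exact add_mem hx hy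
  · intro c x hx; rw [smul_mul_assoc, mul_smul_comm]; exact Submodule.smul_mem _ _ hx
  · intro b hb x hx
    refine Mo_ind (p := fun y => Polynomial.aeval u L.B * (x * zt ^ b * y) ∈
      Mo G L.d (t + t' + L.c) (n + n')) ?_ ?_ ?_ ?_ hy
    · rw [mul_zero, mul_zero]; exact zero_mem _
    · intro x y hx hy; rw [mul_add, mul_add]; exact add_mem hx hy
    · intro c x hx; rw [mul_smul_comm, mul_smul_comm]; exact Submodule.smul_mem _ _ hx
    · intro b' hb' y hy
      have e : Polynomial.aeval u L.B * (x * zt ^ b * (y * zt ^ b')) =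
          (Polynomial.aeval u L.B * (x * y)) * zt ^ (b + b') := by
        rw [pow_add]; ring
      rw [e]
      exact Lam_mul_zt (by omega) (L.mul _ _ _ _ hx hy)

lemma one_mem_Lam : (1 : ℚ⟦X⟧) ∈ Lam G L.d 0 :=
  Submodule.subset_span ⟨0, le_rfl, 0, L.hd, by simp⟩

lemma one_mem_Mo : (1 : ℚ⟦X⟧) ∈ Mo G L.d 0 0 :=
  Submodule.subset_span ⟨0, le_rfl, 0, L.hd, 0, le_rfl, by simp⟩

/-- the twisted derivation -/
noncomputable def nb (N : ℕ) (x : ℚ⟦X⟧) : ℚ⟦X⟧ := DD x + (N : ℚ⟦X⟧) * zt * x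

lemma DD_smul (c : ℚ) (x : ℚ⟦X⟧) : DD (c • x) = c • DD x := by
  rw [DD, DD, Derivation.map_smul, mul_smul_comm]

lemma nb_w (N : ℕ) (x : ℚ⟦X⟧) : DD (w ^ N * x) = w ^ N * nb N x := by
  rw [DD_mul, DD_w_pow theta_holds, nb]
  ring

lemma DD_zt_pow (b : ℕ) : DD (zt ^ b) = (b : ℚ⟦X⟧) * zt ^ (b - 1) *
    (Polynomial.aeval u eta - zt ^ 2) := by
  have h0 : DD zt = Polynomial.aeval u eta - zt ^ 2 := by
    rw [DD_zt theta_holds]
    simp [H594.OD.ev2, ev1_apply]
  rcases b with _ | b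
  · rw [pow_zero, DD_one]; simp
  · induction b with
    | zero => simp [h0]
    | succ b ih =>
      rw [pow_succ, DD_mul, ih, h0]
      simp only [Nat.add_sub_cancel]
      push_cast
      ring

lemma Mo_nb {N t : ℕ} {x : ℚ⟦X⟧} (hx : x ∈ Mo G L.d t N) :
    Polynomial.aeval u L.B * nb N x ∈ Mo G L.d (t + L.c) N := by
  have hdeg := L.deg
  refine Mo_ind (p := fun x => Polynomial.aeval u L.B * nb N x ∈ Mo G L.d (t + L.c) N)
    ?_ ?_ ?_ ?_ hx
  · rw [nb, DD_zero, mul_zero, add_zero, mul_zero]; exact zero_mem _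
  · intro x y hx hy
    have e : Polynomial.aeval u L.B * nb N (x + y) = Polynomial.aeval u L.B * nb N x +
        Polynomial.aeval u L.B * nb N y := by
      rw [nb, nb, nb, DD_add]; ring
    rw [e]; exact add_mem hx hy
  · intro c x hx
    have e : Polynomial.aeval u L.B * nb N (c • x) = c • (Polynomial.aeval u L.B * nb N x) := by
      rw [nb, nb, DD_smul, mul_smul_comm, ← smul_add, mul_smul_comm]
    rw [e]; exact Submodule.smul_mem _ _ hx
  · intro b hb x hx
    have e : Polynomial.aeval u L.B * nb N (x * zt ^ b) =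
        (Polynomial.aeval u L.B * DD x) * zt ^ b +
        (b : ℚ) • ((Polynomial.aeval u (L.B * eta) * x) * zt ^ (b - 1)) +
        ((N : ℚ) - b) • ((Polynomial.aeval u L.B * x) * zt ^ (b + 1)) := by
      rw [nb, DD_mul, DD_zt_pow, map_mul, Algebra.smul_def, Algebra.smul_def, map_sub,
        map_natCast, map_natCast]
      rcases b with _ | b
      · simp; ring
      · simp only [Nat.add_sub_cancel]
        push_cast
        ring
    rw [e]
    have heta : eta.natDegree ≤ 4 := by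
      unfold eta
      compute_degree
    refine add_mem (add_mem (Lam_mul_zt hb (L.der _ _ hx)) ?_) ?_
    · refine Submodule.smul_mem _ _ (Lam_mul_zt (by omega) ?_)
      refine Lam_mono ?_ (Lam_poly (m := L.B.natDegree + 4) _ ?_ hx)
      · omega
      · exact Polynomial.natDegree_mul_le.trans (by omega)
    · rcases hb.eq_or_lt with rfl | hb'
      · rw [sub_self, zero_smul]; exact zero_mem _
      · refine Submodule.smul_mem _ _ (Lam_mul_zt (by omega) ?_)
        exact Lam_mono (by omega) (Lam_poly _ le_rfl hx)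

/-- `w^{-N} T_j F` -/
lemma TJ_mem {N : ℕ} {F : ℚ⟦X⟧} (hF : th F = w ^ (N + 2) * G) (j : ℕ) :
    ∃ x : ℚ⟦X⟧, TJ (j + 1) F = w ^ N * x ∧
      Polynomial.aeval u L.B ^ (j + 1) * x ∈ Mo G L.d (L.c * (j + 1)) N := by
  have hdeg := L.deg
  have hw := w_mul_wi theta_holds
  induction j with
  | zero =>
    refine ⟨G, ?_, ?_⟩
    · rw [TJ_succ, TJ, DD, hF, Nat.cast_zero, zero_mul, zero_mul, sub_zero]
      have h7 : w ^ 2 * wi ^ 2 = 1 := by rw [← mul_pow, hw, one_pow]
      linear_combination (w ^ N * G) * h7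
    · rw [zero_add, pow_one, mul_one]
      have := Lam_mul_zt (n := N) (Nat.zero_le N) L.gen
      rwa [pow_zero, mul_one] at this
  | succ j ih =>
    obtain ⟨x, hx1, hx2⟩ := ih
    refine ⟨nb N x - ((j + 1 : ℕ) : ℚ⟦X⟧) * pu * x, ?_, ?_⟩
    · rw [TJ_succ, hx1, nb_w]; ring
    · set β := Polynomial.aeval u L.B with hβ
      set y := β ^ (j + 1) * x with hy
      have hDβ : DD (β ^ (j + 1)) = (j + 1 : ℕ) * β ^ j * Polynomial.aeval u (pp * L.B.derivative) := by
        have h1 : DD β = Polynomial.aeval u (pp * L.B.derivative) := by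
          have := DD_ev1 theta_holds L.B
          rw [ev1_apply, ev1_apply, d1_apply] at this
          exact this
        rw [DD, Derivation.leibniz_pow]
        rw [DD] at h1
        simp only [Nat.add_sub_cancel, smul_eq_mul, nsmul_eq_mul]
        linear_combination (((j + 1 : ℕ) : ℚ⟦X⟧) * β ^ j) * h1
      have h2 : β ^ (j + 1 + 1) * (nb N x - ((j + 1 : ℕ) : ℚ⟦X⟧) * pu * x) =
          β * nb N y - ((j + 1 : ℕ) : ℚ) • (Polynomial.aeval u (pp * L.B.derivative) * y) -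
          ((j + 1 : ℕ) : ℚ) • (Polynomial.aeval u (L.B * pp.derivative) * y) := by
        rw [hy, nb, nb, DD_mul, hDβ, Algebra.smul_def, Algebra.smul_def, map_natCast, map_mul,
          map_mul, ← ev1_apply pp.derivative, ev1_dpp, ← hβ]
        push_cast
        ring
      rw [h2]
      have hpp : pp.natDegree ≤ 3 := by
        unfold pp
        compute_degree
      have e : L.c * (j + 1 + 1) = L.c * (j + 1) + L.c := by ring
      refine sub_mem (sub_mem ?_ ?_) ?_
      · rw [e]; exact Mo_nb L hx2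
      · refine Submodule.smul_mem _ _ (Mo_mono ?_ le_rfl
          (Mo_poly (m := 3 + L.B.natDegree) _ ?_ hx2))
        · omega
        · refine Polynomial.natDegree_mul_le.trans ?_
          have := Polynomial.natDegree_derivative_le L.B
          omega
      · refine Submodule.smul_mem _ _ (Mo_mono ?_ le_rfl
          (Mo_poly (m := L.B.natDegree + 3) _ ?_ hx2))
        · omega
        · refine Polynomial.natDegree_mul_le.trans ?_
          have := Polynomial.natDegree_derivative_le pp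
          omega

end

end H635.GEN
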