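import Pool.Agent.Run7.h635.GEN.GPigA
import Pool.Agent.Run7.h635.OD.Pig

/-! GPIG, part B: overconvergent series. -/

set_option autoImplicit false

open PowerSeries

namespace H635.GEN

open H809.OD H594.OD

section

variable {G : ℚ⟦X⟧} (L : LData G)

/-- the denominators: `B (1 - 8u)²` -/
noncomputable def Bt : Polynomial ℚ := L.B * (1 - 8 * Polynomial.X) ^ 2

lemma deg_one_sub : (1 - 8 * Polynomial.X : Polynomial ℚ).natDegree ≤ 1 := by
  have : (1 - 8 * Polynomial.X : Polynomial ℚ) =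
    Polynomial.C (-8) * Polynomial.X + Polynomial.C 1 := by
    simp only [map_neg, map_one, map_ofNat]
    ring
  rw [this]
  exact Polynomial.natDegree_linear_le

lemma deg_one_sub_pow (m : ℕ) : ((1 - 8 * Polynomial.X : Polynomial ℚ) ^ m).natDegree ≤ m := by
  refine Polynomial.natDegree_pow_le.trans ?_
  have := Nat.mul_le_mul_left m deg_one_sub
  omega

lemma deg_Bt : (Bt L).natDegree ≤ L.c := by
  have := L.deg
  have h2 := deg_one_sub_pow 2
  unfold Bt
  refine Polynomial.natDegree_mul_le.trans ?_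
  omega

/-- the constant of the filtration -/
def cc : ℕ := L.c + 2

/-- `x` with `B̃(u)^s x ∈ Mo(c s, n)` -/
noncomputable def MM (s n : ℕ) : Submodule ℚ ℚ⟦X⟧ :=
  (Mo G L.d (cc L * s) n).comap (LinearMap.mulLeft ℚ (Polynomial.aeval u (Bt L) ^ s))

lemma mem_MM {s n : ℕ} {x : ℚ⟦X⟧} :
    x ∈ MM L s n ↔ Polynomial.aeval u (Bt L) ^ s * x ∈ Mo G L.d (cc L * s) n := Iff.rfl

lemma MM_mono {s s' n n' : ℕ} (hs : s ≤ s') (hn : n ≤ n') : MM L s n ≤ MM L s' n' := by
  intro x hx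
  rw [mem_MM] at hx ⊢
  obtain ⟨r, rfl⟩ := Nat.exists_eq_add_of_le hs
  have e : Polynomial.aeval u (Bt L) ^ (s + r) * x =
      Polynomial.aeval u (Bt L ^ r) * (Polynomial.aeval u (Bt L) ^ s * x) := by
    rw [pow_add, map_pow]; ring
  rw [e]
  refine Mo_mono ?_ hn (Mo_poly (m := r * L.c) _ ?_ hx)
  · unfold cc
    have e2 : (L.c + 2) * (s + r) = (L.c + 2) * s + r * L.c + 2 * r := by ring
    omega
  · refine Polynomial.natDegree_pow_le.trans ?_
    exact Nat.mul_le_mul_left r (deg_Bt L)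

lemma MM_mul {s s' n n' : ℕ} {x y : ℚ⟦X⟧} (hx : x ∈ MM L s n) (hy : y ∈ MM L s' n') :
    x * y ∈ MM L (s + s' + 1) (n + n') := by
  rw [mem_MM] at hx hy ⊢
  have h := Mo_mul L hx hy
  have h2 := Mo_poly ((1 - 8 * Polynomial.X) ^ 2) (deg_one_sub_pow 2) h
  have e : Polynomial.aeval u (Bt L) ^ (s + s' + 1) * (x * y) =
      Polynomial.aeval u ((1 - 8 * Polynomial.X : Polynomial ℚ) ^ 2) *
        (Polynomial.aeval u L.B * (Polynomial.aeval u (Bt L) ^ s * x *
          (Polynomial.aeval u (Bt L) ^ s' * y))) := by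
    have e3 : Polynomial.aeval u (Bt L) = Polynomial.aeval u L.B *
        Polynomial.aeval u ((1 - 8 * Polynomial.X : Polynomial ℚ) ^ 2) := by
      rw [Bt, map_mul]
    rw [pow_add, pow_add, pow_one]
    nth_rewrite 3 [e3]
    ring
  rw [e]
  refine Mo_mono ?_ le_rfl h2
  unfold cc
  have e4 : (L.c + 2) * (s + s' + 1) = (L.c + 2) * s + (L.c + 2) * s' + (L.c + 2) := by ring
  omega

lemma one_mem_MM : (1 : ℚ⟦X⟧) ∈ MM L 0 0 := by
  rw [mem_MM, pow_zero, one_mul, mul_zero]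
  exact one_mem_Mo L

lemma mono_mem_MM (j b : ℕ) : u ^ j * zt ^ b ∈ MM L j b := by
  have h1 : u ^ j * zt ^ b ∈ Mo G L.d j b := by
    have := Lam_mul_zt (n := b) le_rfl (Lam_u j (one_mem_Lam L))
    rw [mul_one, zero_add] at this
    exact this
  rw [mem_MM, ← map_pow]
  refine Mo_mono ?_ le_rfl (Mo_poly (m := j * L.c) _ ?_ h1)
  · unfold cc
    have e : (L.c + 2) * j = j * L.c + 2 * j := by ring
    omega
  · refine Polynomial.natDegree_pow_le.trans ?_
    exact Nat.mul_le_mul_left j (deg_Bt L)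

/-- overconvergent elements: slope `A`, intercept `B`, degree `n` in `ζ` -/
def Ov (A B n : ℕ) (x : ℚ⟦X⟧) : Prop := ∃ y : ℕ → ℚ⟦X⟧,
  (∀ j, y j ∈ MM L (A * j + B) n) ∧ (∀ j, ∃ g ∈ Ser2, y j = 2 ^ j * g) ∧
  ∀ M, ∃ g ∈ Ser2, x - ∑ j ∈ Finset.range M, y j = 2 ^ M * g

lemma Ov.ser {A B n : ℕ} {x : ℚ⟦X⟧} (h : Ov L A B n x) : x ∈ Ser2 := by
  obtain ⟨y, _, _, h3⟩ := h
  obtain ⟨g, hg, e⟩ := h3 0
  rw [Finset.sum_range_zero, sub_zero, pow_zero, one_mul] at e
  rw [e]; exact hg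

lemma Ov.mono {A B B' n n' : ℕ} {x : ℚ⟦X⟧} (h : Ov L A B n x) (hB : B ≤ B') (hn : n ≤ n') :
    Ov L A B' n' x := by
  obtain ⟨y, h1, h2, h3⟩ := h
  exact ⟨y, fun j => MM_mono L (by omega) hn (h1 j), h2, h3⟩

lemma two_mem : (2 : ℚ⟦X⟧) ∈ Ser2 := ofNat_mem Ser2 2

lemma Ov_single {A B n : ℕ} {x : ℚ⟦X⟧} (hx : x ∈ MM L B n) (hs : x ∈ Ser2) : Ov L A B n x := by
  refine ⟨fun j => if j = 0 then x else 0, ?_, ?_, ?_⟩
  · intro j
    by_cases h : j = 0
    · subst h; simpa using hx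
    · simp only [if_neg h]; exact zero_mem _
  · intro j
    by_cases h : j = 0
    · subst h; exact ⟨x, hs, by simp⟩
    · exact ⟨0, zero_mem _, by simp [h]⟩
  · intro M
    rcases M with _ | M
    · exact ⟨x, hs, by simp⟩
    · refine ⟨0, zero_mem _, ?_⟩
      rw [Finset.sum_range_succ']
      simp

lemma sum_antidiag (M : ℕ) (f : ℕ → ℕ → ℚ⟦X⟧) :
    ∑ l ∈ Finset.range M, ∑ i ∈ Finset.range (l + 1), f i (l - i) =
      ∑ i ∈ Finset.range M, ∑ i' ∈ Finset.range (M - i), f i i' := by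
  induction M with
  | zero => simp
  | succ M ih =>
    rw [Finset.sum_range_succ, ih, Finset.sum_range_succ (fun i => ∑ i' ∈ Finset.range (M + 1 - i), f i i'),
      Finset.sum_range_succ (fun i => f i (M - i))]
    have e : ∑ i ∈ Finset.range M, ∑ i' ∈ Finset.range (M + 1 - i), f i i' =
        ∑ i ∈ Finset.range M, (∑ i' ∈ Finset.range (M - i), f i i' + f i (M - i)) := by
      refine Finset.sum_congr rfl fun i hi => ?_
      have := Finset.mem_range.1 hi
      have e2 : M + 1 - i = (M - i) + 1 := by omega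
      rw [e2, Finset.sum_range_succ]
    rw [e, Finset.sum_add_distrib]
    have e3 : M + 1 - M = 1 := by omega
    rw [e3, Finset.sum_range_one, Nat.sub_self]
    ring

lemma Ov.mul {A B B' n n' : ℕ} {x x' : ℚ⟦X⟧} (h : Ov L A B n x) (h' : Ov L A B' n' x') :
    Ov L A (B + B' + 1) (n + n') (x * x') := by
  have hx' := h'.ser
  obtain ⟨y, h1, h2, h3⟩ := h
  obtain ⟨y', h1', h2', h3'⟩ := h'
  refine ⟨fun l => ∑ i ∈ Finset.range (l + 1), y i * y' (l - i), ?_, ?_, ?_⟩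
  · intro l
    refine sum_mem fun i hi => ?_
    have hi' := Finset.mem_range.1 hi
    refine MM_mono L ?_ le_rfl (MM_mul L (h1 i) (h1' (l - i)))
    obtain ⟨m, rfl⟩ := Nat.exists_eq_add_of_le (Nat.lt_succ_iff.1 hi')
    rw [Nat.add_sub_cancel_left, mul_add]
    omega
  · intro l
    choose g hg e using h2
    choose g' hg' e' using h2'
    refine ⟨∑ i ∈ Finset.range (l + 1), g i * g' (l - i), sum_mem fun i _ => mul_mem (hg i) (hg' _), ?_⟩
    rw [Finset.mul_sum]
    refine Finset.sum_congr rfl fun i hi => ?_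
    have hi' := Finset.mem_range.1 hi
    obtain ⟨m, rfl⟩ := Nat.exists_eq_add_of_le (Nat.lt_succ_iff.1 hi')
    rw [Nat.add_sub_cancel_left, e, e', pow_add]
    ring
  · intro M
    obtain ⟨g0, hg0, e0⟩ := h3 M
    choose g hg e using h2
    choose r hr er using h3'
    refine ⟨g0 * x' + ∑ i ∈ Finset.range M, g i * r (M - i), add_mem (mul_mem hg0 hx')
      (sum_mem fun i _ => mul_mem (hg i) (hr _)), ?_⟩
    rw [sum_antidiag M (fun i i' => y i * y' i')]
    have e1 : ∑ i ∈ Finset.range M, ∑ i' ∈ Finset.range (M - i), y i * y' i' =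
        (∑ i ∈ Finset.range M, y i) * x' - 2 ^ M * ∑ i ∈ Finset.range M, g i * r (M - i) := by
      rw [Finset.sum_mul, Finset.mul_sum, ← Finset.sum_sub_distrib]
      refine Finset.sum_congr rfl fun i hi => ?_
      have hi' := Finset.mem_range.1 hi
      rw [← Finset.mul_sum]
      have e2 : ∑ i' ∈ Finset.range (M - i), y' i' = x' - 2 ^ (M - i) * r (M - i) := by
        rw [← er (M - i)]; ring
      have e3 : (2 : ℚ⟦X⟧) ^ M = 2 ^ i * 2 ^ (M - i) := by
        rw [← pow_add]; congr 1; omega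
      rw [e2, mul_sub, e3]
      rw [e i]
      ring
    rw [e1]
    linear_combination x' * e0

lemma Ov.pow {A B n : ℕ} {x : ℚ⟦X⟧} (h : Ov L A B n x) (k : ℕ) :
    Ov L A (k * (B + 1)) (k * n) (x ^ k) := by
  induction k with
  | zero =>
    rw [pow_zero, zero_mul, zero_mul]
    exact Ov_single L (one_mem_MM L) (one_mem _)
  | succ k ih =>
    rw [pow_succ]
    refine (ih.mul L h).mono L ?_ ?_
    · have : (k + 1) * (B + 1) = k * (B + 1) + B + 1 := by ring
      omega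
    · have : (k + 1) * n = k * n + n := by ring
      omega

lemma Ov.two {A B n : ℕ} {x : ℚ⟦X⟧} (h : Ov L A B n x) : Ov L A B n (2 * x) := by
  obtain ⟨y, h1, h2, h3⟩ := h
  refine ⟨fun j => 2 * y j, fun j => ?_, fun j => ?_, fun M => ?_⟩
  · have e : 2 * y j = (2 : ℚ) • y j := by
      rw [Algebra.smul_def, map_ofNat]
    show 2 * y j ∈ _
    rw [e]
    exact Submodule.smul_mem _ _ (h1 j)
  · obtain ⟨g, hg, e⟩ := h2 j
    exact ⟨2 * g, mul_mem two_mem hg, by show 2 * y j = _; rw [e]; ring⟩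
  · obtain ⟨g, hg, e⟩ := h3 M
    refine ⟨2 * g, mul_mem two_mem hg, ?_⟩
    rw [← Finset.mul_sum]
    linear_combination 2 * e

lemma IntSer_le2 : IntSer ≤ Ser2 := by
  rintro f ⟨g, rfl⟩
  refine ⟨PowerSeries.map (Int.castRingHom Z2) g, ?_⟩
  ext n
  rw [coeff_map, coeff_map, coeff_map]
  simp

/-- the primitive is overconvergent -/
lemma Ov_F (ht : S_Tay) {N : ℕ} {F : ℚ⟦X⟧} (hF : th F = w ^ (N + 2) * G) (hng : ng F = -F)
    (hs : F ∈ Ser2) : Ov L 1 1 N (F * wi ^ N) := by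
  obtain ⟨t1, t2⟩ := ht F hs hng
  have hwi : wi ^ N ∈ Ser2 := pow_mem (IntSer_le2 theta_holds.wi_int) N
  refine ⟨fun j => yy F j * wi ^ N, fun j => ?_, fun j => ?_, fun M => ?_⟩
  · obtain ⟨x, hx1, hx2⟩ := TJ_mem L hF j
    have hw : w ^ N * wi ^ N = 1 := by rw [← mul_pow, w_mul_wi theta_holds, one_pow]
    have e1 : yy F j * wi ^ N = (-1 / 2 * ((-2) ^ (j + 1) / (Nat.factorial (j + 1) : ℚ)) : ℚ) •
        (si ^ (2 * (j + 1)) * x) := by
      rw [yy, hx1, smul_eq_C_mul]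
      linear_combination (C (-1 / 2 * ((-2) ^ (j + 1) / (Nat.factorial (j + 1) : ℚ))) *
        si ^ (2 * (j + 1)) * x) * hw
    show yy F j * wi ^ N ∈ _
    rw [e1]
    refine Submodule.smul_mem _ _ ?_
    rw [mem_MM]
    have e2 : Polynomial.aeval u (Bt L) ^ (1 * j + 1) * (si ^ (2 * (j + 1)) * x) =
        Polynomial.aeval u L.B ^ (j + 1) * x := by
      have h8 := si_mul theta_holds
      have e3 : Polynomial.aeval u (Bt L) = Polynomial.aeval u L.B * (1 - 8 * u) ^ 2 := by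
        rw [Bt]
        simp only [map_mul, map_pow, map_sub, map_one, map_ofNat, Polynomial.aeval_X]
      rw [e3, one_mul, mul_pow, ← pow_mul]
      calc Polynomial.aeval u L.B ^ (j + 1) * (1 - 8 * u) ^ (2 * (j + 1)) *
            (si ^ (2 * (j + 1)) * x) = Polynomial.aeval u L.B ^ (j + 1) *
            ((1 - 8 * u) * si) ^ (2 * (j + 1)) * x := by rw [mul_pow]; ring
        _ = _ := by rw [h8, one_pow, mul_one]
    rw [e2]
    refine Mo_mono ?_ le_rfl hx2
    unfold cc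
    rw [one_mul]
    exact Nat.mul_le_mul_right _ (by omega)
  · obtain ⟨g, hg, e⟩ := t1 j
    exact ⟨g * wi ^ N, mul_mem hg hwi, by show yy F j * wi ^ N = _; rw [e]; ring⟩
  · obtain ⟨g, hg, e⟩ := t2 M
    refine ⟨g * wi ^ N, mul_mem hg hwi, ?_⟩
    rw [← Finset.sum_mul]
    linear_combination wi ^ N * e

/-- the rows are overconvergent -/
lemma Ov_row (ht : S_Tay) {N : ℕ} {F : ℚ⟦X⟧} (hF : th F = w ^ (N + 2) * G) (hng : ng F = -F)
    (hs : F ∈ Ser2) (j k b : ℕ) : Ov L 1 (j + k * 2 + 1) (b + k * N) (row N 0 F j k b) := by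
  have h1 : Ov L 1 1 N (2 ^ (0 + 1) * F * wi ^ N) := by
    have := (Ov_F L ht hF hng hs).two
    rw [zero_add, pow_one, mul_assoc]
    exact this
  have h2 := h1.pow L k
  have h3 : Ov L 1 j b (u ^ j * zt ^ b) := Ov_single L (mono_mem_MM L j b)
    (mul_mem (pow_mem (IntSer_le2 theta_holds.u_int) _)
      (pow_mem (IntSer_le2 theta_holds.zt_int) _))
  have h4 := h3.mul L h2
  unfold row
  exact h4.mono L (by omega) le_rfl

end

end H635.GEN
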