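import Pool.Agent.Run7.h635.GEN.Rat
import Pool.Agent.Run7.h635.GEN.Dens

/-!
# Infinitely many ordinary primes
-/

set_option autoImplicit false

namespace H635.GEN

open Run7.h635.OD

lemma PosLog.infinite {P : ℕ → Prop} (h : PosLog P) : {p : ℕ | p.Prime ∧ P p}.Infinite := by
  classical
  intro hfin
  obtain ⟨c, hc, x0, h0⟩ := h
  set B : ℝ := ∑ p ∈ hfin.toFinset, Real.log p with hB
  obtain ⟨y, hy⟩ := exists_nat_gt (B / c)
  have h1 := h0 (max x0 y) (le_max_left _ _)
  have h2 : (∑ p ∈ (Finset.range (max x0 y + 1)).filter (fun p => p.Prime ∧ P p), Real.log p) ≤ B := by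
    refine Finset.sum_le_sum_of_subset_of_nonneg ?_ ?_
    · intro p hp
      rw [Finset.mem_filter] at hp
      rw [Set.Finite.mem_toFinset]
      exact hp.2
    · intro p hp _
      rw [Set.Finite.mem_toFinset] at hp
      exact Real.log_nonneg (by exact_mod_cast hp.1.one_le)
  have h3 : B < c * (max x0 y : ℕ) := by
    have h4 : B < c * y := by
      rw [div_lt_iff₀ hc] at hy
      linarith
    have h5 : (y : ℝ) ≤ (max x0 y : ℕ) := by exact_mod_cast le_max_right x0 y
    exact h4.trans_le (mul_le_mul_of_nonneg_left h5 hc.le)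
  linarith

end H635.GEN
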