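import Pool.Agent.Run7.h635.GEN.Fin2

/-!
# Eigenforms on `Γ_0(M)` with integral coefficients
-/

set_option autoImplicit false

namespace H635.GEN

open H809.OD MatrixGroups UpperHalfPlane CongruenceSubgroup Run7.h635.OD ModularForm

lemma gamma1_le (M : ℕ) : (Gamma1 M : Subgroup (GL (Fin 2) ℝ)) ≤ Gamma0 M :=
  Subgroup.map_mono (Gamma1_in_Gamma0 M)

/-- forms on `Γ_0(M)` as forms on `Γ_1(M)` -/
noncomputable def toG1 {M : ℕ} {k : ℤ} (f : CuspForm (Gamma0 M) k) : CuspForm (Gamma1 M) k where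
  toFun := f
  slash_action_eq' g hg := f.slash_action_eq' g (gamma1_le M hg)
  holo' := f.holo'
  zero_at_cusps' hc := f.zero_at_cusps' (hc.mono (gamma1_le M))

/-- **Eigenforms on `Γ_0(M)` with integral coefficients** -/
theorem rat (M k : ℕ) [NeZero M] (hk : 3 ≤ k) (f : CuspForm (Gamma0 M) k)
    (h1 : (UpperHalfPlane.qExpansion 1 f).coeff 1 = 1)
    (hh : ∀ p : ℕ, p.Prime → ∃ c : ℂ, ∀ z : ℍ,
      (if p ∣ M then 0 else (p : ℂ) ^ (k - 1) * f (ofComplex ((p : ℂ) * z))) +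
        (∑ b ∈ Finset.range p, f (ofComplex (((z : ℂ) + b) / p))) / p = c * f z)
    (b : ℕ → ℤ) (hb : ∀ n, (UpperHalfPlane.qExpansion 1 f).coeff n = b n) :
    PosLog (fun p => ¬ p ∣ M ∧ ¬ (p : ℤ) ∣ b p) := by
  refine final_int M k hk 1 (toG1 f) ⟨h1, fun γ hγ => ?_, fun p hp => ?_⟩ b hb
  · have h2 : ((toG1 f : CuspForm (Gamma1 M) k) : ℍ → ℂ) ∣[(k : ℤ)] γ = f :=
      f.slash_action_eq' (γ : GL (Fin 2) ℝ) (Subgroup.mem_map_of_mem _ hγ)
    rw [h2]
    have h3 : IsUnit ((γ 1 1 : ℤ) : ZMod M) := by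
      have h4 : ((γ 1 0 : ℤ) : ZMod M) = 0 := Gamma0_mem.1 hγ
      have h5 := congrArg (fun n : ℤ => (n : ZMod M)) (Matrix.det_fin_two γ.1)
      rw [γ.2] at h5
      push_cast at h5
      rw [h4, mul_zero, sub_zero] at h5
      exact IsUnit.of_mul_eq_one_right _ h5.symm
    rw [MulChar.one_apply h3, one_smul]
    rfl
  · obtain ⟨c, hc⟩ := hh p hp
    refine ⟨c, fun z => ?_⟩
    show _ = c * f z
    rw [← hc z]
    unfold H635.PER.heckeT
    congr 1
    beta_reduce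
    by_cases hpM : p ∣ M
    · rw [if_pos hpM, MulChar.map_nonunit, zero_mul, zero_mul]
      rw [ZMod.isUnit_iff_coprime]
      exact fun h => (Nat.Prime.coprime_iff_not_dvd hp).1 h hpM
    · rw [if_neg hpM, MulChar.one_apply, one_mul]
      · rfl
      · rw [ZMod.isUnit_iff_coprime]
        exact (Nat.Prime.coprime_iff_not_dvd hp).2 hpM

end H635.GEN
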